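import Pool.Agent.Lib.MP_c2298c_an.AT.Gen

/-!
The perturbation is admissible and conserves mass.
-/

namespace Pool.Agent.Lib.MP_c2298c_an.AT

open MeasureTheory Filter Topology Set

open scoped ENNReal NNReal

variable {X : Type} [NormedAddCommGroup X] [NormedSpace ℝ X] [PartialOrder X] [CompleteSpace X]

omit [PartialOrder X] [CompleteSpace X] in
/-- as `specRadius_lt_one` in `../DP.lean`: for `m ≥ 2`, `‖C ^ m‖ ≤ 2 (1/2)^m ≤ (3/4)^m` -/
theorem specRadius_lt {C : X →L[ℝ] X} (h : ∀ m : ℕ, ‖C ^ (m + 1)‖ ≤ (1 / 2) ^ m) :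
    specRadius C < 1 := by
  refine lt_of_le_of_lt (b := ((3 / 4 : ℝ≥0) : ℝ≥0∞)) ?_ ?_
  swap
  · rw [ENNReal.coe_lt_one_iff, ← NNReal.coe_lt_coe]
    norm_num
  refine limsup_le_of_le (by isBoundedDefault) ?_
  filter_upwards [eventually_ge_atTop 2] with m hm
  obtain ⟨n, rfl⟩ : ∃ n, m = n + 2 := ⟨m - 2, by omega⟩
  have h1 : ‖C ^ (n + 2)‖₊ ≤ (3 / 4 : ℝ≥0) ^ (n + 2) := by
    rw [← NNReal.coe_le_coe]
    push_cast
    refine (h (n + 1)).trans ?_
    have h2 : (1 / 2 : ℝ) ^ n ≤ (3 / 4) ^ n := pow_le_pow_left₀ (by norm_num) (by norm_num) n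
    have h3 : (0 : ℝ) ≤ (1 / 2) ^ n := by positivity
    rw [pow_succ, pow_succ, pow_succ]
    linarith
  have h3 : (‖C ^ (n + 2)‖₊ : ℝ≥0∞) ≤ ((3 / 4 : ℝ≥0) : ℝ≥0∞) ^ (n + 2) := by
    rw [← ENNReal.coe_pow]
    exact ENNReal.coe_le_coe.2 h1
  calc (‖C ^ (n + 2)‖₊ : ℝ≥0∞) ^ (1 / ((n + 2 : ℕ) : ℝ))
      ≤ (((3 / 4 : ℝ≥0) : ℝ≥0∞) ^ (n + 2)) ^ (1 / ((n + 2 : ℕ) : ℝ)) :=
        ENNReal.rpow_le_rpow h3 (by positivity)
    _ = ((3 / 4 : ℝ≥0) : ℝ≥0∞) := by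
        rw [one_div, ENNReal.pow_rpow_inv_natCast (by omega)]

namespace Mod

variable (M : Mod X) {T : X →ₗ.[ℝ] X}

/-- `gen_eval` with `a_U` -/
theorem a_T (hT : IsGenerator M.U T) (k : ℕ) (φ : T.domain) :
    M.a k (T φ) = -(rho k * M.a k φ) := by
  exact gen_eval hT (M.a k) (rho k) (fun t ψ ht => M.a_U k t ψ ht) φ

theorem summable_rho (hT : IsGenerator M.U T) (φ : T.domain) :
    Summable fun k => |rho k * M.a k φ| := by
  refine (M.summable_a (T φ)).congr fun k => ?_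
  rw [M.a_T hT, abs_neg]

theorem hasSum_Bop (hT : IsGenerator M.U T) (φ : T.domain) :
    HasSum (fun k => (rho k * M.a k φ) • M.b k) (M.Bop T φ) := by
  rw [M.Bop_apply]
  have h := (M.hasSum_op M.norm_b (T φ)).neg
  simpa only [M.a_T hT, neg_smul, neg_neg] using h

/-- `m (b k) = 1` (`m_u`, `m_γ`), so `m (op b ψ) = ∑ a k ψ = m ψ` (`HasSum.mapL`, `m_sum`) -/
theorem conservative (φ : T.domain) : M.m (T φ + M.Bop T φ) = 0 := by
  have hb : ∀ k, M.m (M.b k) = 1 := by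
    intro k
    unfold b
    rw [map_smul, map_add, M.m_u, M.m_γ, smul_eq_mul]
    norm_num
  have h := (M.hasSum_op M.norm_b (T φ)).mapL M.m
  simp only [map_smul, hb, smul_eq_mul, mul_one] at h
  rw [M.Bop_apply, map_add, map_neg, h.unique (M.m_sum _), add_neg_cancel]

/-- `l₀ = 1`; `R` from `exists_resolvent`; `θ k = rho k / (l + rho k)`, `c k = θ k • b k`,
`C = op c`. From `l • R φ - T (R φ) = φ` and `a_T`: `(l + rho k) * a k (R φ) = a k φ`, so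
`C φ = B (R φ)` by `hasSum_Bop`. `C (c k) = (θ k / 2) • c k` (`op_b`, `c 0 = 0`), hence
`‖(C ^ m) (c k)‖ ≤ (1/2)^m`, and `(C ^ (m+1)) φ = ∑ a k φ • (C ^ m) (c k)` (`HasSum.mapL`,
`norm_tsum_le`). -/
theorem admissible [IsOrderedAddMonoid X] [OrderClosedTopology X] [IsOrderedModule ℝ X]
    (hT : IsGenerator M.U T) : IsAdmissiblePerturbation T (M.Bop T) := by
  refine ⟨⟨0, 1, fun φ => ?_⟩, fun φ hφ => ?_, 1, fun l hl => ?_⟩
  · rw [M.Bop_apply, norm_neg, zero_mul, zero_add]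
    exact (M.op M.b).le_of_opNorm_le (M.norm_op_le M.norm_b) _
  · exact (M.hasSum_Bop hT φ).nonneg fun k =>
      smul_nonneg (mul_nonneg (rho_nonneg k) (M.a_pos k _ hφ)) (M.b_pos k)
  have hl0 : 0 < l := lt_of_lt_of_le one_pos hl
  obtain ⟨R, hR1, hR2⟩ := exists_resolvent M.semi M.cont hT hl0
  have hd : ∀ k, 0 < l + rho k := fun k => add_pos_of_pos_of_nonneg hl0 (rho_nonneg k)
  obtain ⟨θ, hθ⟩ : ∃ θ : ℕ → ℝ, ∀ k, θ k = rho k / (l + rho k) := ⟨_, fun _ => rfl⟩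
  have hθ0 : ∀ k, 0 ≤ θ k := fun k => by
    rw [hθ]
    exact div_nonneg (rho_nonneg k) (hd k).le
  have hθ1 : ∀ k, θ k ≤ 1 := fun k => by
    rw [hθ, div_le_one (hd k)]
    linarith
  obtain ⟨c, hc⟩ : ∃ c : ℕ → X, ∀ k, c k = θ k • M.b k := ⟨_, fun _ => rfl⟩
  have hcn : ∀ k, ‖c k‖ ≤ 1 := fun k => by
    rw [hc, norm_smul, Real.norm_of_nonneg (hθ0 k)]
    exact mul_le_one₀ (hθ1 k) (norm_nonneg _) (M.norm_b k)
  have hc0 : c 0 = 0 := by rw [hc, hθ, rho_zero, zero_div, zero_smul]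
  have hCc : ∀ k, M.op c (c k) = (θ k / 2) • c k := fun k => by
    conv_lhs => rw [hc k]
    rw [map_smul, M.op_b hcn hc0, smul_smul, mul_one_div]
  have hpow : ∀ m k, ‖(M.op c ^ m) (c k)‖ ≤ (1 / 2) ^ m := by
    intro m k
    induction m with
    | zero => simpa using hcn k
    | succ m ih =>
      rw [pow_succ, ContinuousLinearMap.mul_apply, hCc, map_smul, norm_smul,
        Real.norm_of_nonneg (by linarith [hθ0 k]), pow_succ, mul_comm]
      exact mul_le_mul ih (by linarith [hθ1 k]) (by linarith [hθ0 k]) (by positivity)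
  refine ⟨R, M.op c, fun φ => ?_, hR2, specRadius_lt fun m => ?_⟩
  · obtain ⟨h, hφ⟩ := hR1 φ
    refine ⟨h, hφ, (M.hasSum_op hcn φ).unique ?_⟩
    have e : ∀ k, M.a k φ • c k = (rho k * M.a k (R φ)) • M.b k := by
      intro k
      have h1 := congrArg (M.a k) hφ
      rw [map_sub, map_smul, M.a_T hT k ⟨R φ, h⟩, smul_eq_mul] at h1
      have h2 : M.a k φ = (l + rho k) * M.a k (R φ) := by
        rw [← h1]
        ring
      rw [hc, smul_smul, h2, hθ]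
      congr 1
      field_simp [(hd k).ne']
    simp only [e]
    exact M.hasSum_Bop hT ⟨R φ, h⟩
  · refine ContinuousLinearMap.opNorm_le_bound _ (by positivity) fun φ => ?_
    have h := (M.hasSum_op hcn φ).mapL (M.op c ^ m)
    simp only [map_smul] at h
    rw [pow_succ, ContinuousLinearMap.mul_apply, ← h.tsum_eq]
    exact M.norm_tsum_le (hpow m) φ

end Mod

end Pool.Agent.Lib.MP_c2298c_an.AT
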