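import Pool.Agent.Lib.MP_c2298c_an.AT.Stmt

/-!
The abstract model: fast states and a rotating reservoir.
-/

namespace Pool.Agent.Lib.MP_c2298c_an.AT

open MeasureTheory Filter Topology Set

/-- the rate of the state `k` (the reservoir is `k = 0`) -/
noncomputable def rho (k : ℕ) : ℝ := 28 * k * (k + 1)

theorem rho_nonneg (k : ℕ) : 0 ≤ rho k := by unfold rho; positivity

theorem rho_zero : rho 0 = 0 := by simp [rho]

/-- the error term -/
noncomputable def er (k : ℕ) (t : ℝ) : ℝ := Real.exp (-(rho k * t / 4)) + 1 / k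

/-- what is used of the model -/
structure Mod (X : Type) [NormedAddCommGroup X] [NormedSpace ℝ X] [PartialOrder X] where
  U : ℝ → X →L[ℝ] X
  a : ℕ → X →L[ℝ] ℝ
  m : X →L[ℝ] ℝ
  u : ℕ → X
  γ : ℕ → ℝ → X
  semi : IsSubstochasticSemigroup U
  cont : ∀ φ, Continuous fun t => U t φ
  norm_U : ∀ t, ‖U t‖ ≤ 1
  a_sum : ∀ (φ : X) (s : Finset ℕ), ∑ k ∈ s, |a k φ| ≤ ‖φ‖
  a_pos : ∀ k φ, 0 ≤ φ → 0 ≤ a k φ
  a_U : ∀ k t φ, 0 ≤ t → a k (U t φ) = Real.exp (-(rho k * t)) * a k φ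
  m_sum : ∀ φ, HasSum (fun k => a k φ) (m φ)
  a_u : ∀ i k, a i (u k) = if i = k then 1 else 0
  u_pos : ∀ k, 0 ≤ u k
  norm_u : ∀ k, ‖u k‖ ≤ 1
  U_u : ∀ k t, 0 ≤ t → U t (u k) = Real.exp (-(rho k * t)) • u k
  a_γ : ∀ i k t, a i (γ k t) = if i = 0 then 1 else 0
  γ_pos : ∀ k t, 0 ≤ γ k t
  norm_γ : ∀ k t, ‖γ k t‖ ≤ 1
  U_γ : ∀ k s t, 0 ≤ t → U t (γ k s) = γ k (s + t)
  lip : ∀ k s t, ‖γ k s - γ k t‖ ≤ 7 * (k + 1) * |s - t|
  weak : ∀ (t : ℝ) (f : X →L[ℝ] ℝ), Tendsto (fun k => f (γ k t)) atTop (𝓝 (f (u 0)))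
  sep : ∀ t k l, k ≠ l → 1 / 2 ≤ ‖γ k t - γ l t‖
  osc : ∀ (k : ℕ) (t : ℝ), 1 ≤ ‖γ k (t + 1 / (2 * (k + 1))) - γ k t‖

namespace Mod

variable {X : Type} [NormedAddCommGroup X] [NormedSpace ℝ X] [PartialOrder X] [CompleteSpace X]
  (M : Mod X)

omit [CompleteSpace X] in
theorem summable_a (φ : X) : Summable fun k => |M.a k φ| :=
  summable_of_sum_le (fun _ => abs_nonneg _) (M.a_sum φ)

omit [CompleteSpace X] in
theorem tsum_a_le (φ : X) : ∑' k, |M.a k φ| ≤ ‖φ‖ :=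
  (M.summable_a φ).tsum_le_of_sum_le (M.a_sum φ)

theorem summable_smul {w : ℕ → X} {c : ℝ} (h : ∀ k, ‖w k‖ ≤ c) (φ : X) :
    Summable fun k => M.a k φ • w k :=
  Summable.of_norm_bounded ((M.summable_a φ).mul_right c) fun k => by
    rw [norm_smul]
    exact mul_le_mul_of_nonneg_left (h k) (abs_nonneg _)

omit [CompleteSpace X] in
theorem norm_tsum_le {w : ℕ → X} {c : ℝ} (h : ∀ k, ‖w k‖ ≤ c) (φ : X) :
    ‖∑' k, M.a k φ • w k‖ ≤ c * ‖φ‖ := by
  have hc : 0 ≤ c := (norm_nonneg _).trans (h 0)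
  refine (tsum_of_norm_bounded ((M.summable_a φ).hasSum.mul_right c) fun k => ?_).trans ?_
  · rw [norm_smul]
    exact mul_le_mul_of_nonneg_left (h k) (abs_nonneg _)
  · rw [mul_comm]
    exact mul_le_mul_of_nonneg_left (M.tsum_a_le φ) hc

/-- the operator with columns `w`, bounded case -/
noncomputable def opAux {w : ℕ → X} {c : ℝ} (h : ∀ k, ‖w k‖ ≤ c) : X →L[ℝ] X :=
  LinearMap.mkContinuous
    { toFun := fun φ => ∑' k, M.a k φ • w k
      map_add' := fun φ ψ => by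
        rw [← (M.summable_smul h φ).tsum_add (M.summable_smul h ψ)]
        simp only [map_add, add_smul]
      map_smul' := fun r φ => by
        rw [RingHom.id_apply, ← (M.summable_smul h φ).tsum_const_smul r]
        simp only [map_smul, smul_eq_mul, mul_smul] }
    c (M.norm_tsum_le h)

open Classical in
/-- the operator with columns `w` -/
noncomputable def op (w : ℕ → X) : X →L[ℝ] X :=
  if h : ∃ c : ℝ, ∀ k, ‖w k‖ ≤ c then M.opAux h.choose_spec else 0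

theorem hasSum_op {w : ℕ → X} {c : ℝ} (h : ∀ k, ‖w k‖ ≤ c) (φ : X) :
    HasSum (fun k => M.a k φ • w k) (M.op w φ) := by
  unfold op
  rw [dif_pos ⟨c, h⟩]
  exact (M.summable_smul h φ).hasSum

theorem norm_op_le {w : ℕ → X} {c : ℝ} (h : ∀ k, ‖w k‖ ≤ c) : ‖M.op w‖ ≤ c :=
  ContinuousLinearMap.opNorm_le_bound _ ((norm_nonneg _).trans (h 0)) fun φ => by
    rw [← (M.hasSum_op h φ).tsum_eq]
    exact M.norm_tsum_le h φ

theorem op_u {w : ℕ → X} {c : ℝ} (h : ∀ k, ‖w k‖ ≤ c) (k : ℕ) : M.op w (M.u k) = w k := by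
  refine (M.hasSum_op h _).unique ?_
  have := hasSum_single (f := fun i => M.a i (M.u k) • w i) k fun i hi => by
    rw [M.a_u, if_neg hi, zero_smul]
  rwa [M.a_u, if_pos rfl, one_smul] at this

theorem op_γ {w : ℕ → X} {c : ℝ} (h : ∀ k, ‖w k‖ ≤ c) (k : ℕ) (t : ℝ) :
    M.op w (M.γ k t) = w 0 := by
  refine (M.hasSum_op h _).unique ?_
  have := hasSum_single (f := fun i => M.a i (M.γ k t) • w i) 0 fun i hi => by
    rw [M.a_γ, if_neg hi, zero_smul]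
  rwa [M.a_γ, if_pos rfl, one_smul] at this

theorem op_nonneg [IsOrderedAddMonoid X] [OrderClosedTopology X] [IsOrderedModule ℝ X]
    {w : ℕ → X} {c : ℝ} (h : ∀ k, ‖w k‖ ≤ c) (hw : ∀ k, 0 ≤ w k) {φ : X} (hφ : 0 ≤ φ) :
    0 ≤ M.op w φ :=
  (M.hasSum_op h φ).nonneg fun k => smul_nonneg (M.a_pos k φ hφ) (hw k)

/-- where the mass goes after a jump from the state `k` -/
noncomputable def b (k : ℕ) : X := (1 / 2 : ℝ) • (M.u k + M.γ k 0)

omit [CompleteSpace X] in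
theorem norm_b (k : ℕ) : ‖M.b k‖ ≤ 1 := by
  unfold b
  rw [norm_smul, Real.norm_of_nonneg (by norm_num)]
  have := norm_add_le (M.u k) (M.γ k 0)
  linarith [M.norm_u k, M.norm_γ k 0]

omit [CompleteSpace X] in
theorem b_pos [IsOrderedAddMonoid X] [IsOrderedModule ℝ X] (k : ℕ) : 0 ≤ M.b k :=
  smul_nonneg (by norm_num) (add_nonneg (M.u_pos k) (M.γ_pos k 0))

theorem op_b {w : ℕ → X} {c : ℝ} (h : ∀ k, ‖w k‖ ≤ c) (h0 : w 0 = 0) (k : ℕ) :
    M.op w (M.b k) = (1 / 2 : ℝ) • w k := by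
  unfold b
  rw [map_smul, map_add, M.op_u h, M.op_γ h, h0, add_zero]

omit [CompleteSpace X] in
theorem m_u (k : ℕ) : M.m (M.u k) = 1 := by
  refine (M.m_sum _).unique ?_
  have := hasSum_single (f := fun i => M.a i (M.u k)) k fun i hi => by rw [M.a_u, if_neg hi]
  rwa [M.a_u, if_pos rfl] at this

omit [CompleteSpace X] in
theorem m_γ (k : ℕ) (t : ℝ) : M.m (M.γ k t) = 1 := by
  refine (M.m_sum _).unique ?_
  have := hasSum_single (f := fun i => M.a i (M.γ k t)) 0 fun i hi => by rw [M.a_γ, if_neg hi]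
  rwa [M.a_γ, if_pos rfl] at this

omit [CompleteSpace X] in
theorem one_le_norm_γ (k : ℕ) (t : ℝ) : 1 ≤ ‖M.γ k t‖ := by
  have := M.a_sum (M.γ k t) {0}
  rwa [Finset.sum_singleton, M.a_γ, if_pos rfl, abs_one] at this

/-- the perturbation -/
noncomputable def Bop (T : X →ₗ.[ℝ] X) : T.domain →ₗ[ℝ] X :=
  -((M.op M.b : X →ₗ[ℝ] X) ∘ₗ T.toFun)

theorem Bop_apply (T : X →ₗ.[ℝ] X) (φ : T.domain) : M.Bop T φ = -M.op M.b (T φ) := rfl

/-- the Dyson-Phillips terms -/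
noncomputable def W : ℕ → ℝ → X →L[ℝ] X
  | 0, t => M.U t
  | j + 1, t => M.op fun k => ∫ s in (0 : ℝ)..max t 0,
      (rho k * Real.exp (-(rho k * s))) • W j (t - s) (M.b k)

/-- the columns of the term of order `j + 1` -/
noncomputable def w (j k : ℕ) (t : ℝ) : X :=
  ∫ s in (0 : ℝ)..max t 0, (rho k * Real.exp (-(rho k * s))) • M.W j (t - s) (M.b k)

theorem W_zero (t : ℝ) : M.W 0 t = M.U t := rfl

theorem W_succ (j : ℕ) (t : ℝ) : M.W (j + 1) t = M.op fun k => M.w j k t := rfl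

theorem w_zero (j : ℕ) (t : ℝ) : M.w j 0 t = 0 := by simp [w, rho_zero]

theorem w_at_zero (j k : ℕ) : M.w j k 0 = 0 := by simp [w]

end Mod

end Pool.Agent.Lib.MP_c2298c_an.AT
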