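import Pool.Agent.Lib.MP_c2298c_an.AT.Base

/-!
Cosines on the circle.
-/

namespace Pool.Agent.Lib.MP_c2298c_an.AT

open MeasureTheory Filter Topology Set

/-- the normalised Haar measure of the circle -/
noncomputable abbrev hm : Measure UnitAddCircle := AddCircle.haarAddCircle

/-- a rotated cosine -/
noncomputable def cs (k : ℕ) (t : ℝ) : C(UnitAddCircle, ℝ) :=
  ⟨fun y => (fourier ((k : ℤ) + 1) (y - (t : UnitAddCircle))).re, by fun_prop⟩

theorem cs_apply (k : ℕ) (t : ℝ) (y : UnitAddCircle) :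
    cs k t y = (fourier ((k : ℤ) + 1) (y - (t : UnitAddCircle))).re := rfl

theorem circ_norm73 (n : ℤ) (y : UnitAddCircle) : ‖(fourier n y : ℂ)‖ = 1 := Circle.norm_coe _

theorem circ_add73 (n : ℤ) (x y : UnitAddCircle) :
    (fourier n (x + y) : ℂ) = fourier n x * fourier n y := by
  rw [fourier_apply, fourier_apply, fourier_apply, smul_add, AddCircle.toCircle_add,
    Circle.coe_mul]

theorem cs_shift (k : ℕ) (s t : ℝ) (y : UnitAddCircle) :
    cs k s (y - (t : UnitAddCircle)) = cs k (s + t) y := by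
  rw [cs_apply, cs_apply, AddCircle.coe_add, sub_sub, add_comm (t : UnitAddCircle)]

theorem abs_cs_le (k : ℕ) (t : ℝ) (y : UnitAddCircle) : |cs k t y| ≤ 1 := by
  exact (Complex.abs_re_le_norm _).trans (circ_norm73 _ _).le

/-- `integral_eq_zero_of_add_right_eq_neg`, `fourier_add_half_inv_index` -/
theorem integral_fourier {n : ℤ} (hn : n ≠ 0) :
    ∫ y, (fourier n y : ℂ).re ∂hm = 0 := by
  refine integral_eq_zero_of_add_right_eq_neg
    (g := (((1 : ℝ) / 2 / n : ℝ) : UnitAddCircle)) fun y => ?_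
  rw [fourier_add_half_inv_index hn one_pos, Complex.neg_re]

theorem integral_cs (k : ℕ) (t : ℝ) : ∫ y, cs k t y ∂hm = 0 := by
  simp only [cs_apply]
  rw [integral_sub_right_eq_self (fun y : UnitAddCircle => (fourier ((k : ℤ) + 1) y : ℂ).re)]
  exact integral_fourier (by omega)

/-- `integral_sub_right_eq_self`; `re z * re w = (re (z w) + re (z conj w)) / 2`, `fourier_add`,
`fourier_neg` -/
theorem integral_cs_mul (k l : ℕ) (t : ℝ) :
    ∫ y, cs k t y * cs l t y ∂hm = if k = l then 1 / 2 else 0 := by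
  simp only [cs_apply]
  rw [integral_sub_right_eq_self (fun y : UnitAddCircle =>
    (fourier ((k : ℤ) + 1) y : ℂ).re * (fourier ((l : ℤ) + 1) y : ℂ).re)]
  have h1 : ∀ y : UnitAddCircle,
      (fourier ((k : ℤ) + 1) y : ℂ).re * (fourier ((l : ℤ) + 1) y : ℂ).re =
        (1 / 2) * (fourier ((k : ℤ) + 1 + (l + 1)) y : ℂ).re +
          (1 / 2) * (fourier ((k : ℤ) + 1 + -(l + 1)) y : ℂ).re := by
    intro y
    rw [fourier_add (m := (k : ℤ) + 1), fourier_add (m := (k : ℤ) + 1), fourier_neg,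
      Complex.mul_re, Complex.mul_re, Complex.conj_re, Complex.conj_im]
    ring
  have h2 : ∀ n : ℤ, Integrable (fun y : UnitAddCircle => (1 / 2) * (fourier n y : ℂ).re) hm :=
    fun n => Continuous.integrable_of_hasCompactSupport (by fun_prop)
      (HasCompactSupport.of_compactSpace _)
  simp only [h1]
  rw [integral_add (h2 _) (h2 _), integral_const_mul, integral_const_mul,
    integral_fourier (by omega)]
  split_ifs with h
  · subst h
    rw [add_neg_cancel]
    simp only [fourier_zero, Complex.one_re, integral_const, probReal_univ, smul_eq_mul]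
    norm_num
  · rw [integral_fourier (by omega)]
    norm_num

/-- `fourier n (y - s) = fourier n (y - t) * exp (2 π i n (t - s))` (`fourier_apply`,
`AddCircle.toCircle_add`, `fourier_coe_apply`), `Complex.norm_exp_I_mul_ofReal_sub_one_le` -/
theorem cs_lip (k : ℕ) (s t : ℝ) (y : UnitAddCircle) :
    |cs k s y - cs k t y| ≤ 7 * (k + 1) * |s - t| := by
  have h1 : y - (s : UnitAddCircle) = y - (t : UnitAddCircle) + ((t - s : ℝ) : UnitAddCircle) := by
    rw [AddCircle.coe_sub]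
    abel
  have h2 : (fourier ((k : ℤ) + 1) ((t - s : ℝ) : UnitAddCircle) : ℂ) =
      Complex.exp (Complex.I * ((2 * Real.pi * (k + 1) * (t - s) : ℝ) : ℂ)) := by
    rw [fourier_coe_apply]
    congr 1
    push_cast
    ring
  rw [cs_apply, cs_apply, h1, circ_add73, ← Complex.sub_re]
  refine (Complex.abs_re_le_norm _).trans ?_
  rw [← mul_sub_one, norm_mul, circ_norm73, one_mul, h2]
  refine Real.norm_exp_I_mul_ofReal_sub_one_le.trans ?_
  rw [Real.norm_eq_abs, abs_mul, abs_sub_comm t s, abs_of_nonneg (by positivity)]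
  have := Real.pi_lt_d2
  gcongr
  linarith

/-- `fourier_add_half_inv_index` -/
theorem cs_half (k : ℕ) (t : ℝ) (y : UnitAddCircle) :
    cs k (t + 1 / (2 * (k + 1))) y = -cs k t y := by
  have h1 : y - (t : UnitAddCircle) = y - ((t + 1 / (2 * (k + 1)) : ℝ) : UnitAddCircle) +
      (((1 : ℝ) / 2 / (((k : ℤ) + 1 : ℤ) : ℝ) : ℝ) : UnitAddCircle) := by
    have : (1 : ℝ) / 2 / (((k : ℤ) + 1 : ℤ) : ℝ) = 1 / (2 * (k + 1)) := by
      push_cast
      rw [div_div]
    rw [this, AddCircle.coe_add]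
    abel
  rw [cs_apply, cs_apply, h1, fourier_add_half_inv_index (by omega) one_pos, Complex.neg_re,
    neg_neg]

theorem integrable_h96 {f : UnitAddCircle → ℝ} (hf : Continuous f) : Integrable f hm :=
  hf.integrable_of_hasCompactSupport (HasCompactSupport.of_compactSpace f)

theorem integral_sq_h96 (s : Finset ℕ) (e : ℕ → ℝ) (he : ∀ k, e k * e k = 1) (t : ℝ) :
    ∫ y, (∑ k ∈ s, e k • cs k t) y ^ 2 ∂hm = s.card / 2 := by
  have h1 : ∀ y, (∑ k ∈ s, e k • cs k t) y ^ 2 =
      ∑ k ∈ s, ∑ l ∈ s, e k * e l * (cs k t y * cs l t y) := fun y => by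
    rw [ContinuousMap.sum_apply, sq, Finset.sum_mul_sum]
    refine Finset.sum_congr rfl fun k _ => Finset.sum_congr rfl fun l _ => ?_
    simp only [ContinuousMap.smul_apply, smul_eq_mul]
    ring
  have hi : ∀ k l, Integrable (fun y => e k * e l * (cs k t y * cs l t y)) hm := fun k l =>
    integrable_h96 (by fun_prop)
  simp_rw [h1]
  rw [integral_finsetSum _ fun k _ => integrable_finsetSum _ fun l _ => hi k l]
  have h2 : ∀ k ∈ s, ∫ y, ∑ l ∈ s, e k * e l * (cs k t y * cs l t y) ∂hm = 1 / 2 := fun k hk => by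
    rw [integral_finsetSum _ fun l _ => hi k l, Finset.sum_eq_single k]
    · rw [integral_const_mul, integral_cs_mul, if_pos rfl, he, one_mul]
    · intro l _ hl
      rw [integral_const_mul, integral_cs_mul, if_neg (Ne.symm hl), mul_zero]
    · exact fun h => absurd hk h
  rw [Finset.sum_congr rfl h2, Finset.sum_const, nsmul_eq_mul]
  ring

theorem integral_abs_h96 (g : C(UnitAddCircle, ℝ)) {N : ℝ} (hN : 0 < N)
    (hg : ∫ y, g y ^ 2 ∂hm = N ^ 2 / 2) : ∫ y, |g y| ∂hm ≤ N := by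
  have h1 : ∫ y, |g y| ∂hm ≤ ∫ y, ((2 * N)⁻¹ * g y ^ 2 + N / 2) ∂hm := by
    refine integral_mono (integrable_h96 (by fun_prop)) (integrable_h96 (by fun_prop)) fun y => ?_
    have h : (2 * N)⁻¹ * g y ^ 2 + N / 2 - |g y| = (2 * N)⁻¹ * (|g y| - N) ^ 2 := by
      rw [← sq_abs (g y)]
      field_simp
      ring
    have : 0 ≤ (2 * N)⁻¹ * (|g y| - N) ^ 2 := by positivity
    show |g y| ≤ (2 * N)⁻¹ * g y ^ 2 + N / 2
    linarith
  rw [integral_add (integrable_h96 (by fun_prop)) (integrable_const _), integral_const_mul, hg,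
    integral_const] at h1
  have h2 : (2 * N)⁻¹ * (N ^ 2 / 2) = N / 4 := by
    field_simp
    ring
  simp only [probReal_univ, smul_eq_mul, one_mul] at h1
  linarith

/-- For a finite set `s` of `N ^ 2` indices with `ε ≤ |F (cs k t)|`, signs `e k` and
`g = ∑ k ∈ s, e k • cs k t`: `N ^ 2 ε ≤ F g ≤ C ∫ |g| ≤ C ∫ (g ^ 2 / N + N) / 2 ≤ C N`
(`integral_cs_mul`). So `{k | ε ≤ |F (cs k t)|}` is finite (`Set.Infinite.exists_subset_card_eq`,
`Nat.cofinite_eq_atTop`). -/
theorem cs_weak (F : C(UnitAddCircle, ℝ) →ₗ[ℝ] ℝ) {C : ℝ}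
    (hF : ∀ g, |F g| ≤ C * ∫ y, |g y| ∂hm) (t : ℝ) :
    Tendsto (fun k => F (cs k t)) atTop (𝓝 0) := by
  rw [← Nat.cofinite_eq_atTop, Metric.tendsto_nhds]
  intro ε hε
  rw [eventually_cofinite]
  by_contra hinf
  obtain ⟨N, hN⟩ := exists_nat_gt (|C| / ε)
  have hN0 : (0 : ℝ) < N := lt_of_le_of_lt (by positivity) hN
  obtain ⟨s, hs, hcard⟩ := Set.Infinite.exists_subset_card_eq hinf (N ^ 2)
  set e : ℕ → ℝ := fun k => if 0 ≤ F (cs k t) then 1 else -1 with he
  have hee : ∀ k, e k * e k = 1 := fun k => by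
    simp only [he]
    split_ifs <;> norm_num
  have heF : ∀ k, e k * F (cs k t) = |F (cs k t)| := fun k => by
    simp only [he]
    split_ifs with h
    · rw [one_mul, abs_of_nonneg h]
    · rw [abs_of_neg (not_le.1 h)]
      ring
  have hsq := integral_sq_h96 s e hee t
  rw [hcard, Nat.cast_pow] at hsq
  have h1 := integral_abs_h96 _ hN0 hsq
  have h2 : (N : ℝ) ^ 2 * ε ≤ F (∑ k ∈ s, e k • cs k t) := by
    rw [map_sum]
    have : ∑ _k ∈ s, ε ≤ ∑ k ∈ s, F (e k • cs k t) := Finset.sum_le_sum fun k hk => by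
      have := hs hk
      simp only [mem_ofPred_eq, Real.dist_eq, sub_zero, not_lt] at this
      rwa [map_smul, smul_eq_mul, heF]
    rwa [Finset.sum_const, hcard, nsmul_eq_mul, Nat.cast_pow] at this
  have h3 := hF (∑ k ∈ s, e k • cs k t)
  have h0 : 0 ≤ ∫ y, |(∑ k ∈ s, e k • cs k t) y| ∂hm := integral_nonneg fun y => abs_nonneg _
  have h4 : C * ∫ y, |(∑ k ∈ s, e k • cs k t) y| ∂hm ≤ |C| * N :=
    (mul_le_mul_of_nonneg_right (le_abs_self C) h0).trans
      (mul_le_mul_of_nonneg_left h1 (abs_nonneg C))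
  have h5 : |C| < N * ε := (div_lt_iff₀ hε).1 hN
  have h6 := le_abs_self (F (∑ k ∈ s, e k • cs k t))
  nlinarith

end Pool.Agent.Lib.MP_c2298c_an.AT
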