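import Pool.Agent.Lib.MP_c2298c_an.AT.Base

/-!
Bounds for the columns of the Dyson-Phillips terms.
-/

namespace Pool.Agent.Lib.MP_c2298c_an.AT

open MeasureTheory Filter Topology Set

variable {X : Type} [NormedAddCommGroup X] [NormedSpace ℝ X] [PartialOrder X] [CompleteSpace X]

theorem int_exp (r t : ℝ) :
    ∫ s in (0 : ℝ)..t, r * Real.exp (-(r * s)) = 1 - Real.exp (-(r * t)) := by
  rw [intervalIntegral.integral_eq_sub_of_hasDerivAt (f := fun s => -Real.exp (-(r * s)))
    (fun s _ => ((((hasDerivAt_id s).const_mul r).neg.exp).neg).congr_deriv (by simp [mul_comm]))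
    (Continuous.intervalIntegrable (by fun_prop) _ _)]
  simp only [mul_zero, neg_zero, Real.exp_zero]
  ring

/-- derivative of `-(exp (-(r * c * s))) / c` -/
theorem int_exp_le {r c t : ℝ} (hr : 0 ≤ r) (hc : 0 < c) (ht : 0 ≤ t) :
    ∫ s in (0 : ℝ)..t, r * Real.exp (-(r * c * s)) ≤ 1 / c := by
  have _ := hr
  have _ := ht
  have e : ∀ s, r * Real.exp (-(r * c * s)) = 1 / c * (r * c * Real.exp (-(r * c * s))) :=
    fun s => by field_simp
  simp only [e]
  rw [intervalIntegral.integral_const_mul, int_exp]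
  exact mul_le_of_le_one_right (by positivity) (by linarith [Real.exp_pos (-(r * c * t))])

namespace Mod

variable (M : Mod X)

theorem norm_w_h78 {j : ℕ} (h : ∀ k t, ‖M.W j t (M.b k)‖ ≤ (1 / 2) ^ j) (k : ℕ) (t : ℝ) :
    ‖M.w j k t‖ ≤ (1 / 2) ^ j := by
  have hr := rho_nonneg k
  refine (intervalIntegral.norm_integral_le_of_norm_le (le_max_right t 0)
    (g := fun s => (1 / 2) ^ j * (rho k * Real.exp (-(rho k * s))))
    (.of_forall fun s _ => ?_) (Continuous.intervalIntegrable (by fun_prop) _ _)).trans ?_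
  · rw [norm_smul, Real.norm_of_nonneg (by positivity), mul_comm]
    exact mul_le_mul_of_nonneg_right (h k _) (by positivity)
  · rw [intervalIntegral.integral_const_mul, int_exp]
    exact mul_le_of_le_one_right (by positivity)
      (by linarith [Real.exp_pos (-(rho k * max t 0))])

/-- induction on `j`. Step: the bound gives `‖w j k t‖ ≤ (1/2)^j` (`int_exp`,
`intervalIntegral.norm_integral_le_of_norm_le`), then `op_b` with `w_zero`; continuity by
`intervalIntegral.continuous_parametric_intervalIntegral_of_continuous` -/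
theorem Wb (j : ℕ) : (∀ k t, ‖M.W j t (M.b k)‖ ≤ (1 / 2) ^ j) ∧
    ∀ k, Continuous fun t => M.W j t (M.b k) := by
  induction j with
  | zero =>
    refine ⟨fun k t => ?_, fun k => M.cont _⟩
    rw [W_zero, pow_zero]
    exact ((M.U t).le_opNorm _).trans
      (mul_le_one₀ (M.norm_U t) (norm_nonneg _) (M.norm_b k))
  | succ j ih =>
    have e : ∀ k t, M.W (j + 1) t (M.b k) = (1 / 2 : ℝ) • M.w j k t := fun k t =>
      M.op_b (fun k => M.norm_w_h78 ih.1 k t) (M.w_zero j t) k
    refine ⟨fun k t => ?_, fun k => ?_⟩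
    · rw [e, norm_smul, Real.norm_of_nonneg (by norm_num), pow_succ']
      exact mul_le_mul_of_nonneg_left (M.norm_w_h78 ih.1 k t) (by norm_num)
    · simp only [e]
      refine Continuous.const_smul ?_ _
      have h1 : Continuous fun p : ℝ × ℝ => M.W j (p.1 - p.2) (M.b k) :=
        (ih.2 k).comp (continuous_fst.sub continuous_snd)
      exact intervalIntegral.continuous_parametric_intervalIntegral_of_continuous
        (f := fun t s => (rho k * Real.exp (-(rho k * s))) • M.W j (t - s) (M.b k))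
        (Continuous.smul (by fun_prop) h1) (continuous_id.max continuous_const)

theorem norm_w (j k : ℕ) (t : ℝ) : ‖M.w j k t‖ ≤ (1 / 2) ^ j := by
  exact M.norm_w_h78 (M.Wb j).1 k t

theorem W_b (j k : ℕ) (t : ℝ) : M.W (j + 1) t (M.b k) = (1 / 2 : ℝ) • M.w j k t :=
  M.op_b (fun k => M.norm_w j k t) (M.w_zero j t) k

/-- one step. With `r = rho k`, `p s = r exp (-(r s))`:
`w j k t - c • γ k t = ∫ p s • (W j (t-s) (b k) - c • γ k t) - (c exp (-(r t))) • γ k t`
(`int_exp`); for `0 ≤ s ≤ t` the norm of the bracket is at most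
`K (exp (-(r (t-s)/4)) + 1/k) + c * 7 (k+1) s ≤ exp (r s/4) (K + c) er k t`, because
`7 (k+1) s = (r s / 4) / k ≤ exp (r s / 4) / k`; then `int_exp_le` with `c = 3/4`. -/
theorem w_step (j k : ℕ) (hk : 1 ≤ k) {K c : ℝ} (hK : 0 ≤ K) (hc : 0 ≤ c)
    (h : ∀ t, 0 ≤ t → ‖M.W j t (M.b k) - c • M.γ k t‖ ≤ K * er k t) (t : ℝ) (ht : 0 ≤ t) :
    ‖M.w j k t - c • M.γ k t‖ ≤ (4 / 3 * K + 7 / 3 * c) * er k t := by
  have hk' : (1 : ℝ) ≤ k := by exact_mod_cast hk
  have hr := rho_nonneg k
  have hki : 0 < 1 / (k : ℝ) := by positivity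
  have hE : 0 ≤ er k t := by unfold er; positivity
  have c1 : Continuous fun s : ℝ => rho k * Real.exp (-(rho k * s)) := by fun_prop
  have c2 : Continuous fun s : ℝ => M.W j (t - s) (M.b k) :=
    ((M.Wb j).2 k).comp (continuous_const.sub continuous_id)
  have c3 : Continuous fun s : ℝ => (rho k * Real.exp (-(rho k * s))) • M.W j (t - s) (M.b k) :=
    c1.smul c2
  have c4 : Continuous fun s : ℝ => (rho k * Real.exp (-(rho k * s))) • c • M.γ k t :=
    c1.smul continuous_const
  have e : M.w j k t - c • M.γ k t = (∫ s in (0 : ℝ)..t, (rho k * Real.exp (-(rho k * s))) •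
      (M.W j (t - s) (M.b k) - c • M.γ k t)) - Real.exp (-(rho k * t)) • c • M.γ k t := by
    simp only [smul_sub]
    rw [intervalIntegral.integral_sub (c3.intervalIntegrable _ _) (c4.intervalIntegrable _ _),
      intervalIntegral.integral_smul_const, int_exp, w, max_eq_left ht, sub_smul, one_smul]
    abel
  have b1 : ‖∫ s in (0 : ℝ)..t, (rho k * Real.exp (-(rho k * s))) •
      (M.W j (t - s) (M.b k) - c • M.γ k t)‖ ≤
      ∫ s in (0 : ℝ)..t, (K + c) * er k t * (rho k * Real.exp (-(rho k * (3 / 4) * s))) := by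
    refine intervalIntegral.norm_integral_le_of_norm_le ht (Eventually.of_forall fun s hs => ?_)
      (Continuous.intervalIntegrable (by fun_prop) _ _)
    have a0 : 1 ≤ Real.exp (rho k * s / 4) := Real.one_le_exp (by have := hs.1.le; positivity)
    have a1 : er k (t - s) ≤ Real.exp (rho k * s / 4) * er k t := by
      unfold er
      rw [mul_add, ← Real.exp_add,
        show rho k * s / 4 + -(rho k * t / 4) = -(rho k * (t - s) / 4) by ring]
      linarith [le_mul_of_one_le_left hki.le a0]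
    have a2 : 7 * (k + 1) * s ≤ Real.exp (rho k * s / 4) * er k t := by
      have a3 : 7 * (k + 1) * s = rho k * s / 4 * (1 / k) := by
        unfold rho
        field_simp
        ring
      have a4 : rho k * s / 4 ≤ Real.exp (rho k * s / 4) := by
        linarith [Real.add_one_le_exp (rho k * s / 4)]
      rw [a3]
      refine (mul_le_mul_of_nonneg_right a4 hki.le).trans
        (mul_le_mul_of_nonneg_left ?_ (Real.exp_pos _).le)
      unfold er
      linarith [Real.exp_pos (-(rho k * t / 4))]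
    have a5 := M.lip k (t - s) t
    rw [show t - s - t = -s by ring, abs_neg, abs_of_pos hs.1] at a5
    have a6 : ‖M.W j (t - s) (M.b k) - c • M.γ k t‖ ≤
        (K + c) * (Real.exp (rho k * s / 4) * er k t) := by
      rw [show M.W j (t - s) (M.b k) - c • M.γ k t = (M.W j (t - s) (M.b k) - c • M.γ k (t - s)) +
        c • (M.γ k (t - s) - M.γ k t) by rw [smul_sub]; abel]
      refine (norm_add_le _ _).trans ?_
      rw [norm_smul, Real.norm_of_nonneg hc, add_mul]
      exact add_le_add ((h _ (sub_nonneg.2 hs.2)).trans (mul_le_mul_of_nonneg_left a1 hK))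
        (mul_le_mul_of_nonneg_left (a5.trans a2) hc)
    rw [norm_smul, Real.norm_of_nonneg (by positivity)]
    refine (mul_le_mul_of_nonneg_left a6 (by positivity)).trans (le_of_eq ?_)
    rw [show -(rho k * (3 / 4) * s) = -(rho k * s) + rho k * s / 4 by ring, Real.exp_add]
    ring
  rw [intervalIntegral.integral_const_mul] at b1
  have b2 := mul_le_mul_of_nonneg_left (int_exp_le (c := 3 / 4) hr (by norm_num) ht)
    (by positivity : 0 ≤ (K + c) * er k t)
  have b3 : ‖Real.exp (-(rho k * t)) • c • M.γ k t‖ ≤ c * er k t := by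
    rw [norm_smul, norm_smul, Real.norm_of_nonneg (Real.exp_pos _).le, Real.norm_of_nonneg hc,
      mul_comm]
    refine mul_le_mul (mul_le_of_le_one_right hc (M.norm_γ k t)) ?_ (Real.exp_pos _).le hc
    unfold er
    linarith [Real.exp_le_exp.2 (show -(rho k * t) ≤ -(rho k * t / 4) by
      linarith [mul_nonneg hr ht])]
  rw [e]
  refine (norm_sub_le _ _).trans ?_
  linarith

theorem w_est_h8 (j k : ℕ) (hk : 1 ≤ k)
    (h : ∀ t, 0 ≤ t → ‖M.W j t (M.b k) - (1 / 2 : ℝ) ^ (j + 1) • M.γ k t‖ ≤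
      7 * (3 / 4) ^ j * er k t) (t : ℝ) (ht : 0 ≤ t) :
    ‖M.w j k t - (1 / 2 : ℝ) ^ (j + 1) • M.γ k t‖ ≤ 21 / 2 * (3 / 4) ^ j * er k t := by
  have hE : 0 ≤ er k t := by unfold er; positivity
  refine (M.w_step j k hk (by positivity) (by positivity) h t ht).trans
    (mul_le_mul_of_nonneg_right ?_ hE)
  have : (1 / 2 : ℝ) ^ j ≤ (3 / 4) ^ j := pow_le_pow_left₀ (by norm_num) (by norm_num) j
  rw [pow_succ]
  linarith

theorem W_est_h8 (j k : ℕ) (hk : 1 ≤ k) (t : ℝ) (ht : 0 ≤ t) :
    ‖M.W j t (M.b k) - (1 / 2 : ℝ) ^ (j + 1) • M.γ k t‖ ≤ 7 * (3 / 4) ^ j * er k t := by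
  induction j generalizing t with
  | zero =>
    have hki : 0 ≤ 1 / (k : ℝ) := by positivity
    rw [W_zero, b, map_smul, map_add, M.U_u k t ht, M.U_γ k 0 t ht, zero_add, zero_add, pow_one,
      ← smul_sub, add_sub_cancel_right, norm_smul, norm_smul,
      Real.norm_of_nonneg (Real.exp_pos _).le, Real.norm_of_nonneg (by norm_num), pow_zero]
    have a1 := mul_le_of_le_one_right (Real.exp_pos (-(rho k * t))).le (M.norm_u k)
    have a2 := Real.exp_le_exp.2 (show -(rho k * t) ≤ -(rho k * t / 4) by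
      linarith [mul_nonneg (rho_nonneg k) ht])
    unfold er
    linarith [Real.exp_pos (-(rho k * t / 4))]
  | succ j ih =>
    have := M.w_est_h8 j k hk ih t ht
    rw [W_b, pow_succ' _ (j + 1), mul_smul, ← smul_sub, norm_smul,
      Real.norm_of_nonneg (by norm_num), pow_succ (3 / 4 : ℝ)]
    linarith

/-- induction on `j` for `‖W j t (b k) - (1/2)^(j+1) • γ k t‖ ≤ 7 (3/4)^j er k t` (`j = 0`: `U_u`,
`U_γ`; step: `W_b`, `w_step`, `(1/2)^(j+1) ≤ (3/4)^j / 2`), then `w_step` once more -/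
theorem w_est (j k : ℕ) (hk : 1 ≤ k) (t : ℝ) (ht : 0 ≤ t) :
    ‖M.w j k t - (1 / 2 : ℝ) ^ (j + 1) • M.γ k t‖ ≤ 11 * (3 / 4) ^ j * er k t := by
  have hE : 0 ≤ (3 / 4 : ℝ) ^ j * er k t := by unfold er; positivity
  have := M.w_est_h8 j k hk (M.W_est_h8 j k hk) t ht
  linarith

end Mod

end Pool.Agent.Lib.MP_c2298c_an.AT
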