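import Pool.Agent.Lib.MP_c2298c_an.AT.Base

/-!
Generators and resolvents of contraction semigroups.
-/

namespace Pool.Agent.Lib.MP_c2298c_an.AT

open MeasureTheory Filter Topology Set

variable {X : Type} [NormedAddCommGroup X] [NormedSpace ℝ X] [PartialOrder X]

omit [PartialOrder X] in
/-- domain: the submodule of all `φ` for which the limit exists; value: `choose`; uniqueness of
limits along `𝓝[>] 0` -/
theorem exists_gen (U : ℝ → X →L[ℝ] X) : ∃ T : X →ₗ.[ℝ] X, IsGenerator U T := by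
  let P : X → X → Prop := fun φ ψ => Tendsto (fun t : ℝ => t⁻¹ • (U t φ - φ)) (𝓝[>] 0) (𝓝 ψ)
  have hadd : ∀ φ ψ φ' ψ', P φ ψ → P φ' ψ' → P (φ + φ') (ψ + ψ') := fun φ ψ φ' ψ' h h' =>
    (h.add h').congr fun t => by rw [map_add, ← smul_add, add_sub_add_comm]
  have hsmul : ∀ (c : ℝ) φ ψ, P φ ψ → P (c • φ) (c • ψ) := fun c φ ψ h =>
    (h.const_smul c).congr fun t => by rw [map_smul, ← smul_sub, smul_comm]
  have huniq : ∀ φ ψ ψ', P φ ψ → P φ ψ' → ψ = ψ' := fun φ ψ ψ' h h' => tendsto_nhds_unique h h'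
  let D : Submodule ℝ X :=
    { carrier := {φ | ∃ ψ, P φ ψ}
      add_mem' := fun ⟨ψ, h⟩ ⟨ψ', h'⟩ => ⟨_, hadd _ _ _ _ h h'⟩
      zero_mem' := ⟨0, by simpa [P] using tendsto_const_nhds⟩
      smul_mem' := fun c _ ⟨ψ, h⟩ => ⟨_, hsmul c _ _ h⟩ }
  have hD : ∀ φ : D, ∃ ψ, P φ ψ := fun φ => φ.2
  choose F hF using hD
  refine ⟨⟨D, ⟨⟨F, fun φ φ' => huniq _ _ _ (hF _) (hadd _ _ _ _ (hF φ) (hF φ'))⟩,
    fun c φ => huniq _ _ _ (hF _) (hsmul c _ _ (hF φ))⟩⟩, fun φ ψ => ⟨?_, fun h => ?_⟩⟩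
  · rintro ⟨h, rfl⟩
    exact hF ⟨φ, h⟩
  · exact ⟨⟨ψ, h⟩, huniq _ _ _ (hF ⟨φ, ⟨ψ, h⟩⟩) h⟩

/-- `U t (U s φ) - U s φ = U s (U t φ - φ)` for `t > 0` (`map_add`, `add_comm`); apply `U s` to
the limit -/
theorem gen_comm {U : ℝ → X →L[ℝ] X} {T : X →ₗ.[ℝ] X} (hU : IsSubstochasticSemigroup U)
    (hT : IsGenerator U T) (φ : T.domain) {s : ℝ} (hs : 0 ≤ s) :
    ∃ h : U s φ ∈ T.domain, T ⟨U s φ, h⟩ = U s (T φ) := by
  have h1 := (hT φ (T φ)).1 ⟨φ.2, rfl⟩
  refine (hT _ _).2 ((((U s).continuous.tendsto _).comp h1).congr' ?_)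
  filter_upwards [self_mem_nhdsWithin] with t ht
  have e : U t (U s φ) = U s (U t φ) := by
    rw [← ContinuousLinearMap.mul_apply, ← hU.map_add t s (le_of_lt ht) hs, add_comm,
      hU.map_add s t hs (le_of_lt ht), ContinuousLinearMap.mul_apply]
  rw [Function.comp_apply, map_smul, map_sub, e]

omit [PartialOrder X] in
/-- apply `f` to the limit; `t⁻¹ (exp (-(r t)) - 1) → -r` (`HasDerivAt.tendsto_slope_zero_right`) -/
theorem gen_eval {U : ℝ → X →L[ℝ] X} {T : X →ₗ.[ℝ] X} (hT : IsGenerator U T) (f : X →L[ℝ] ℝ)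
    (r : ℝ) (hf : ∀ t φ, 0 ≤ t → f (U t φ) = Real.exp (-(r * t)) * f φ) (φ : T.domain) :
    f (T φ) = -(r * f φ) := by
  have h1 := (f.continuous.tendsto _).comp ((hT φ (T φ)).1 ⟨φ.2, rfl⟩)
  have h2 : HasDerivAt (fun t : ℝ => Real.exp (-(r * t)) * f φ) (-(r * f φ)) 0 := by
    have h3 := (((hasDerivAt_id' (0 : ℝ)).const_mul r).neg.exp).mul_const (f φ)
    simpa using h3
  refine tendsto_nhds_unique h1 (h2.tendsto_slope_zero_right.congr' ?_)
  filter_upwards [self_mem_nhdsWithin] with t ht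
  rw [Function.comp_apply, map_smul, map_sub, hf t _ (le_of_lt ht)]
  simp

omit [PartialOrder X] in
lemma shift_Ioi_h80 (g : ℝ → X) (t : ℝ) :
    ∫ s in Ioi (0 : ℝ), g (s + t) = ∫ s in Ioi t, g s := by
  have h := (measurePreserving_add_right (volume : Measure ℝ) t).setIntegral_preimage_emb
    (measurableEmbedding_addRight t) g (Ioi t)
  rw [← h, preimage_add_const_Ioi, sub_self]

lemma laplace_int_h80 {U : ℝ → X →L[ℝ] X} (hU : IsSubstochasticSemigroup U)
    (hc : ∀ φ, Continuous fun t => U t φ) {l : ℝ} (hl : 0 < l) (φ : X) :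
    IntegrableOn (fun s => Real.exp (-(l * s)) • U s φ) (Ioi 0) ∧
      ‖∫ s in Ioi (0 : ℝ), Real.exp (-(l * s)) • U s φ‖ ≤
        (∫ s in Ioi (0 : ℝ), Real.exp (-l * s)) * ‖φ‖ := by
  have h1 : IntegrableOn (fun s => Real.exp (-l * s) * ‖φ‖) (Ioi 0) :=
    (exp_neg_integrableOn_Ioi 0 hl).mul_const _
  have h2 : ∀ᵐ s ∂(volume.restrict (Ioi (0 : ℝ))),
      ‖Real.exp (-(l * s)) • U s φ‖ ≤ Real.exp (-l * s) * ‖φ‖ := by
    filter_upwards [ae_restrict_mem measurableSet_Ioi] with s hs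
    rw [norm_smul, Real.norm_of_nonneg (Real.exp_pos _).le, neg_mul]
    refine mul_le_mul_of_nonneg_left ?_ (Real.exp_pos _).le
    exact ((U s).le_opNorm φ).trans
      (mul_le_of_le_one_left (norm_nonneg _) (hU.contraction s (le_of_lt hs)))
  have h3 : Continuous fun s => Real.exp (-(l * s)) • U s φ :=
    Continuous.smul (by fun_prop) (hc φ)
  refine ⟨h1.mono' h3.aestronglyMeasurable h2, ?_⟩
  rw [← integral_mul_const]
  exact norm_integral_le_of_norm_le h1 h2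

/-- `R φ = ∫ s in Ioi 0, exp (-(l s)) • U s φ` (`exp_neg_integrableOn_Ioi`, `mkContinuous l⁻¹`).
With `g s = exp (-(l s)) • U s φ` and `t > 0`: `U t (R φ) = exp (l t) • ∫ s in Ioi t, g s =
exp (l t) • (R φ - ∫ s in 0..t, g s)` (translate: `integral_comp_add_right_Ioi` type lemma or
`MeasurePreserving.setIntegral_preimage_emb`; `intervalIntegral.integral_Ioi_sub_Ioi`), a function
of `t` with derivative `l • R φ - φ` at `0` (`intervalIntegral.integral_hasDerivAt_right`).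
Second part: `R` commutes with `U t`, so `t⁻¹ • (U t (R φ) - R φ) → R (T φ)`. -/
theorem exists_resolvent [CompleteSpace X] {U : ℝ → X →L[ℝ] X} {T : X →ₗ.[ℝ] X}
    (hU : IsSubstochasticSemigroup U) (hc : ∀ φ, Continuous fun t => U t φ)
    (hT : IsGenerator U T) {l : ℝ} (hl : 0 < l) : ∃ R : X →L[ℝ] X,
      (∀ φ : X, ∃ h : R φ ∈ T.domain, l • R φ - T ⟨R φ, h⟩ = φ) ∧
      ∀ φ : T.domain, R (l • (φ : X) - T φ) = φ := by
  have hi := fun φ => (laplace_int_h80 hU hc hl φ).1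
  let R0 : X →ₗ[ℝ] X :=
    { toFun := fun φ => ∫ s in Ioi (0 : ℝ), Real.exp (-(l * s)) • U s φ
      map_add' := fun φ ψ => by
        rw [← integral_add (hi φ) (hi ψ)]
        simp only [map_add, smul_add]
      map_smul' := fun r φ => by
        rw [RingHom.id_apply, ← integral_smul]
        simp only [map_smul, smul_comm r] }
  let R : X →L[ℝ] X := R0.mkContinuous _ fun φ => (laplace_int_h80 hU hc hl φ).2
  have hR : ∀ φ, R φ = ∫ s in Ioi (0 : ℝ), Real.exp (-(l * s)) • U s φ := fun _ => rfl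
  have hUR : ∀ t, 0 ≤ t → ∀ φ,
      U t (R φ) = ∫ s in Ioi (0 : ℝ), Real.exp (-(l * s)) • U (s + t) φ := by
    intro t ht φ
    rw [hR, ← (U t).integral_comp_comm (hi φ)]
    refine setIntegral_congr_fun measurableSet_Ioi fun s hs => ?_
    show U t (Real.exp (-(l * s)) • U s φ) = Real.exp (-(l * s)) • U (s + t) φ
    rw [map_smul, add_comm, hU.map_add t s ht (le_of_lt hs)]
    rfl
  have hcomm : ∀ t, 0 ≤ t → ∀ φ, U t (R φ) = R (U t φ) := by
    intro t ht φ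
    rw [hUR t ht, hR]
    refine setIntegral_congr_fun measurableSet_Ioi fun s hs => ?_
    show Real.exp (-(l * s)) • U (s + t) φ = Real.exp (-(l * s)) • U s (U t φ)
    rw [hU.map_add s t (le_of_lt hs) ht]
    rfl
  have hform : ∀ t, 0 ≤ t → ∀ φ, U t (R φ) =
      Real.exp (l * t) • (R φ - ∫ s in (0 : ℝ)..t, Real.exp (-(l * s)) • U s φ) := by
    intro t ht φ
    rw [← intervalIntegral.integral_Ioi_sub_Ioi (hi φ) ht, ← hR, sub_sub_cancel,
      ← shift_Ioi_h80 (fun s => Real.exp (-(l * s)) • U s φ) t, ← integral_smul, hUR t ht]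
    refine setIntegral_congr_fun measurableSet_Ioi fun s _ => ?_
    show Real.exp (-(l * s)) • U (s + t) φ =
      Real.exp (l * t) • Real.exp (-(l * (s + t))) • U (s + t) φ
    rw [smul_smul, ← Real.exp_add, show l * t + -(l * (s + t)) = -(l * s) by ring]
  have hlim : ∀ φ, Tendsto (fun t : ℝ => t⁻¹ • (U t (R φ) - R φ)) (𝓝[>] 0)
      (𝓝 (l • R φ - φ)) := by
    intro φ
    have h3 : Continuous fun s => Real.exp (-(l * s)) • U s φ :=
      Continuous.smul (by fun_prop) (hc φ)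
    have h4 := (h3.integral_hasStrictDerivAt 0 0).hasDerivAt
    have h5 : HasDerivAt (fun t : ℝ => Real.exp (l * t)) l 0 := by
      simpa using ((hasDerivAt_id (0 : ℝ)).const_mul l).exp
    have h6 := (h5.smul (h4.const_sub (R φ))).tendsto_slope_zero_right
    have e : Real.exp (l * 0) • -(Real.exp (-(l * 0)) • U 0 φ) +
        l • (R φ - ∫ s in (0 : ℝ)..0, Real.exp (-(l * s)) • U s φ) = l • R φ - φ := by
      rw [hU.map_zero]
      simp [sub_eq_neg_add]
    rw [e] at h6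
    refine h6.congr' ?_
    filter_upwards [self_mem_nhdsWithin] with t ht
    rw [hform t (le_of_lt ht) φ]
    simp
  refine ⟨R, fun φ => ?_, fun φ => ?_⟩
  · obtain ⟨h, e⟩ := (hT (R φ) _).2 (hlim φ)
    exact ⟨h, by rw [e, sub_sub_cancel]⟩
  · have h1 := (hT φ (T φ)).1 ⟨φ.2, rfl⟩
    have h2 : Tendsto (fun t : ℝ => t⁻¹ • (U t (R φ) - R φ)) (𝓝[>] 0) (𝓝 (R (T φ))) := by
      refine ((R.continuous.tendsto _).comp h1).congr' ?_
      filter_upwards [self_mem_nhdsWithin] with t ht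
      show R (t⁻¹ • (U t φ - φ)) = _
      rw [map_smul, map_sub, hcomm t (le_of_lt ht)]
    rw [map_sub, map_smul, tendsto_nhds_unique h2 (hlim φ), sub_sub_cancel]

end Pool.Agent.Lib.MP_c2298c_an.AT
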