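import Pool.Agent.Results.MP_c2298c_an.AllTerms
import Pool.Agent.Results.MP_c2298c_an.FirstCompact

/-!
Each of the two hand-ins implies the statement of the retired one.
-/

namespace Pool.Agent.Lib.MP_c2298c_an.AT

open MeasureTheory

theorem old_of_allTerms : ∃ (Ω : Type) (_ : MeasurableSpace Ω) (ν : Measure Ω),
    SigmaFinite ν ∧ BothConclusionsFail (Lp ℝ 1 ν) := by
  obtain ⟨Ω, m, ν, h1, h2⟩ := Pool.Agent.Results.MP_c2298c_an.AllTerms.result
  exact ⟨Ω, m, ν, h1, both_of_all h2⟩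

theorem old_of_firstCompact : ∃ (Ω : Type) (_ : MeasurableSpace Ω) (ν : Measure Ω),
    SigmaFinite ν ∧ BothConclusionsFail (Lp ℝ 1 ν) := by
  obtain ⟨Ω, m, ν, h1, U, T, B, W, h2, h3, h4⟩ :=
    Pool.Agent.Results.MP_c2298c_an.FirstCompact.result
  exact ⟨Ω, m, ν, h1, U, T, B, W, 1, h2, fun t ht => isWeaklyCompact_of_isCompact (h3 t ht),
    ⟨1, one_pos, fun h => (h4 3 (by norm_num)).1 (isWeaklyCompact_of_isCompact h)⟩,
    ⟨1, one_pos, (h4 4 (by norm_num)).2⟩⟩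

end Pool.Agent.Lib.MP_c2298c_an.AT
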