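import Pool.Agent.Lib.MP_c2298c_an.AT.ModA

/-!
The model on `L¹` of countably many circles.
-/

namespace Pool.Agent.Lib.MP_c2298c_an.AT

open MeasureTheory Filter Topology Set

theorem slice {P : Sp → Prop} (h : ∀ᵐ p ∂nu, P p) (k : ℕ) : ∀ᵐ y ∂hm, P (k, y) :=
  Measure.ae_count_iff.1 (Measure.ae_ae_of_ae_prod h) k

theorem hasSum_lev {f : Sp → ℝ} (hf : Integrable f nu) :
    HasSum (fun k => ∫ y, f (k, y) ∂hm) (∫ p, f p ∂nu) := by
  have h := hf.integral_prod_left
  rw [integral_prod f hf, integral_countable h]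
  simp only [count_real_singleton, smul_eq_mul, one_mul]
  exact (integrable_count_iff.1 h).of_norm.hasSum

/-- indicator of a level -/
def ind (k i : ℕ) : ℝ := if i = k then 1 else 0

theorem abs_ind_le (k i : ℕ) : |ind k i| ≤ 1 := by
  unfold ind; split_ifs <;> simp

theorem hasSum_ind (k : ℕ) (c : ℕ → ℝ) : HasSum (fun i => ind k i * c i) (c k) := by
  have := hasSum_single (f := fun i => ind k i * c i) k fun i hi => by simp [ind, hi]
  simpa [ind] using this

/-- the total mass -/
noncomputable def mm : XL →L[ℝ] ℝ := L1.integralCLM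

theorem mm_eq (φ : XL) : mm φ = ∫ p, φ p ∂nu := by
  rw [← L1.integral_eq_integral, L1.integral_eq]; rfl

/-- the mass on a level -/
noncomputable def aa (k : ℕ) : XL →L[ℝ] ℝ := mm ∘L mul (ind k) (abs_ind_le k)

theorem aa_eq (k : ℕ) (φ : XL) : aa k φ = ∫ y, φ (k, y) ∂hm := by
  have h := hasSum_lev (integrable_mul (ind k) (abs_ind_le k) φ)
  simp only [integral_const_mul] at h
  rw [aa, ContinuousLinearMap.comp_apply, mm_eq, integral_congr_ae (mul_ae _ _ φ)]
  exact h.unique (hasSum_ind k _)

theorem aa_sum (φ : XL) (s : Finset ℕ) : ∑ k ∈ s, |aa k φ| ≤ ‖φ‖ := by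
  rw [L1.norm_eq_integral_norm]
  refine le_trans (Finset.sum_le_sum fun k _ => ?_)
    (sum_le_hasSum s (fun k _ => integral_nonneg fun _ => norm_nonneg _)
      (hasSum_lev (L1.integrable_coeFn φ).norm))
  rw [aa_eq]
  exact norm_integral_le_integral_norm (fun y => φ (k, y))

theorem aa_UU (k : ℕ) (t : ℝ) (φ : XL) : aa k (UU t φ) = dm t k * aa k φ := by
  rw [aa_eq, aa_eq, integral_congr_ae (slice (UU_ae t φ) k),
    ← integral_sub_right_eq_self (fun y => φ (k, y)) (t : UnitAddCircle)]
  exact integral_const_mul (dm t k) fun y => φ (k, y - (t : UnitAddCircle))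

theorem integrable_cm (g : C(UnitAddCircle, ℝ)) : Integrable g hm :=
  g.continuous.integrable_of_hasCompactSupport (HasCompactSupport.of_compactSpace _)

theorem integrable_emb (k : ℕ) (g : C(UnitAddCircle, ℝ)) :
    Integrable (fun p : Sp => ind k p.1 * g p.2) nu := by
  refine Integrable.mul_prod (integrable_count_iff.2 ?_) (integrable_cm g)
  exact (hasSum_single (f := fun i => ‖ind k i‖) k fun i hi => by simp [ind, hi]).summable

/-- a continuous function placed on a level -/
noncomputable def emb (k : ℕ) : C(UnitAddCircle, ℝ) →ₗ[ℝ] XL where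
  toFun g := (integrable_emb k g).toL1 _
  map_add' g h := by
    rw [← Integrable.toL1_add, Integrable.toL1_eq_toL1_iff]
    exact Eventually.of_forall fun p => by simp [mul_add]
  map_smul' r g := by
    rw [RingHom.id_apply, ← Integrable.toL1_smul', Integrable.toL1_eq_toL1_iff]
    exact Eventually.of_forall fun p => by simp [mul_left_comm]

theorem emb_ae (k : ℕ) (g : C(UnitAddCircle, ℝ)) :
    emb k g =ᵐ[nu] fun p => ind k p.1 * g p.2 := Integrable.coeFn_toL1 (integrable_emb k g)

theorem norm_emb (k : ℕ) (g : C(UnitAddCircle, ℝ)) : ‖emb k g‖ = ∫ y, |g y| ∂hm := by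
  have h := hasSum_lev (integrable_emb k g).norm
  have e : ∀ i, |ind k i| = ind k i := fun i => by unfold ind; split_ifs <;> simp
  simp only [norm_mul, Real.norm_eq_abs, e, integral_const_mul] at h
  refine (L1.norm_of_fun_eq_integral_norm (integrable_emb k g)).trans ?_
  simp only [norm_mul, Real.norm_eq_abs, e]
  exact h.unique (hasSum_ind k _)

theorem aa_emb (i k : ℕ) (g : C(UnitAddCircle, ℝ)) :
    aa i (emb k g) = ind k i * ∫ y, g y ∂hm := by
  rw [aa_eq, integral_congr_ae (slice (emb_ae k g) i)]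
  exact integral_const_mul (ind k i) fun y => g y

theorem emb_nonneg (k : ℕ) {g : C(UnitAddCircle, ℝ)} (hg : ∀ y, 0 ≤ g y) : 0 ≤ emb k g := by
  rw [← Lp.coeFn_nonneg]
  filter_upwards [emb_ae k g] with p h
  rw [h]
  refine mul_nonneg ?_ (hg _)
  unfold ind; split_ifs <;> simp

theorem UU_emb (k : ℕ) (t : ℝ) {g g' : C(UnitAddCircle, ℝ)}
    (h : ∀ y, g (y - (t : UnitAddCircle)) = g' y) : UU t (emb k g) = dm t k • emb k g' := by
  refine Lp.ext ?_
  filter_upwards [UU_ae t (emb k g), (mp_rot t).quasiMeasurePreserving.ae (emb_ae k g),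
    Lp.coeFn_smul (dm t k) (emb k g'), emb_ae k g'] with p h1 h2 h3 h4
  rw [h1, h2, h3, Pi.smul_apply, h4]
  simp only [rot, h, smul_eq_mul, ind]
  split_ifs with hp
  · rw [hp]
  · simp

theorem le_norm_emb (g q : C(UnitAddCircle, ℝ)) (hq : ∀ y, |q y| ≤ 1) :
    ∫ y, g y * q y ∂hm ≤ ‖emb 0 g‖ := by
  rw [norm_emb]
  refine integral_mono (integrable_cm (g * q)) (integrable_cm g).abs fun y => ?_
  refine (le_abs_self _).trans ?_
  rw [abs_mul]
  exact mul_le_of_le_one_right (abs_nonneg _) (hq y)

theorem one_add_cs_nonneg (k : ℕ) (t : ℝ) (y : UnitAddCircle) : 0 ≤ (1 + cs k t) y := by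
  have := (abs_le.1 (abs_cs_le k t y)).1
  simp only [ContinuousMap.add_apply, ContinuousMap.one_apply]
  linarith

theorem integral_one_add_cs (k : ℕ) (t : ℝ) : ∫ y, (1 + cs k t) y ∂hm = 1 := by
  simp only [ContinuousMap.add_apply, ContinuousMap.one_apply]
  rw [integral_add (integrable_const _) (integrable_cm _), integral_cs]
  simp

/-- the model -/
noncomputable def model : Mod XL where
  U := UU
  a := aa
  m := mm
  u k := emb k 1
  γ k t := emb 0 (1 + cs k t)
  semi := semi_UU
  cont := continuous_UU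
  norm_U := norm_UU
  a_sum := aa_sum
  a_pos k φ h := by
    rw [aa_eq]
    exact integral_nonneg_of_ae (slice ((Lp.coeFn_nonneg φ).2 h) k)
  a_U k t φ ht := by rw [aa_UU, dm_of_nonneg ht]
  m_sum φ := by
    simp only [aa_eq, mm_eq]
    exact hasSum_lev (L1.integrable_coeFn φ)
  a_u i k := by simp [aa_emb, ind]
  u_pos k := emb_nonneg k fun _ => zero_le_one
  norm_u k := by simp [norm_emb]
  U_u k t ht := by rw [UU_emb k t (g' := 1) fun _ => rfl, dm_of_nonneg ht]
  a_γ i k t := by rw [aa_emb, integral_one_add_cs, mul_one, ind]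
  γ_pos k t := emb_nonneg 0 (one_add_cs_nonneg k t)
  norm_γ k t := by
    rw [norm_emb]
    simp only [abs_of_nonneg (one_add_cs_nonneg k t _), integral_one_add_cs, le_refl]
  U_γ k s t _ := by
    rw [UU_emb 0 t (g' := 1 + cs k (s + t)) fun y => by simp [cs_shift]]
    simp [dm, rho_zero]
  lip k s t := by
    rw [← map_sub, norm_emb]
    refine (integral_mono (integrable_cm _).abs (integrable_const (7 * (k + 1) * |s - t|))
      fun y => ?_).trans (by simp)
    simpa using cs_lip k s t y
  weak t f := by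
    have h := cs_weak ((f : XL →ₗ[ℝ] ℝ) ∘ₗ emb 0) (C := ‖f‖) (fun g => by
      rw [← norm_emb 0 g]
      exact f.le_opNorm _) t
    simp only [map_add]
    simpa using h.const_add (f (emb 0 1))
  sep t k l h := by
    rw [← map_sub]
    refine le_trans (le_of_eq ?_) (le_norm_emb _ (cs k t) (abs_cs_le k t))
    simp only [ContinuousMap.sub_apply, add_sub_add_left_eq_sub, sub_mul]
    rw [integral_sub (f := fun y => cs k t y * cs k t y) (g := fun y => cs l t y * cs k t y)
      (integrable_cm (cs k t * cs k t)) (integrable_cm (cs l t * cs k t)),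
      integral_cs_mul, integral_cs_mul, if_pos rfl, if_neg h.symm, sub_zero]
  osc k t := by
    rw [← map_sub]
    refine le_trans (le_of_eq ?_) (le_norm_emb _ (-cs k t) fun y => by simpa using abs_cs_le k t y)
    have e : ∀ y, ((1 + cs k (t + 1 / (2 * (k + 1))) - (1 + cs k t)) y) * (-cs k t) y =
        2 * (cs k t y * cs k t y) := fun y => by
      simp only [ContinuousMap.sub_apply, ContinuousMap.add_apply, ContinuousMap.neg_apply, cs_half]
      ring
    simp only [e]
    rw [integral_const_mul, integral_cs_mul, if_pos rfl]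
    norm_num

end Pool.Agent.Lib.MP_c2298c_an.AT
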