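import Pool.Agent.Lib.MP_c2298c_an.AT.Wk

/-!
Columns close to the rotating densities.
-/

namespace Pool.Agent.Lib.MP_c2298c_an.AT

open MeasureTheory Filter Topology Set

variable {X : Type} [NormedAddCommGroup X] [NormedSpace ℝ X] [PartialOrder X] [CompleteSpace X]

theorem er_anti (k : ℕ) {s t : ℝ} (h : s ≤ t) : er k t ≤ er k s := by
  unfold er
  have h1 := mul_le_mul_of_nonneg_left h (rho_nonneg k)
  exact add_le_add (Real.exp_le_exp.mpr (by linarith)) le_rfl

theorem er_tendsto {t : ℝ} (ht : 0 < t) : Tendsto (fun k => er k t) atTop (𝓝 0) := by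
  have h1 : Tendsto (fun k : ℕ => rho k * t / 4) atTop atTop := by
    refine tendsto_atTop_mono (fun k => ?_) (tendsto_natCast_atTop_atTop.atTop_mul_const ht)
    have hk : (0 : ℝ) ≤ k := Nat.cast_nonneg k
    have h2 : 0 ≤ (k : ℝ) * t := mul_nonneg hk ht.le
    have h3 : 0 ≤ (k : ℝ) * ((k : ℝ) * t) := mul_nonneg hk h2
    unfold rho
    nlinarith
  have h2 := (Real.tendsto_exp_neg_atTop_nhds_zero.comp h1).add
    (tendsto_one_div_atTop_nhds_zero_nat (𝕜 := ℝ))
  rw [add_zero] at h2
  exact h2

namespace Mod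

variable (M : Mod X)

/-- Weak compactness: `weak_op` with `y = 0` at `t = 0`, `y = c • u 0` for `t > 0` (`weak`,
`er_tendsto`). Not compact: the points `w k t = op (w · t) (u k)` lie in a compact set
(`IsCompactOperator.image_subset_compact_of_bounded`), a subsequence is Cauchy, but
`‖w k t - w l t‖ ≥ c/2 - errors ≥ c/4` for large `k ≠ l` (`sep`). Discontinuity at `t > 0`: along
`s k = t + 1/(2(k+1))`, `‖A (s k) - A t‖ ≥ ‖w k (s k) - w k t‖ ≥ c - 2 K er k t` (`osc`, `er_anti`,
`norm_u`). At `t = 0`: for every `s > 0`, `‖A s - A 0‖ ≥ ‖w k s‖ ≥ c - K er k s → c`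
(`one_le_norm_γ`). -/
theorem only_of {w : ℕ → ℝ → X} {B c K : ℝ} (hc : 0 < c) (hK : 0 ≤ K)
    (hb : ∀ k t, ‖w k t‖ ≤ B) (h0 : ∀ k, w k 0 = 0)
    (he : ∀ k t, 1 ≤ k → 0 ≤ t → ‖w k t - c • M.γ k t‖ ≤ K * er k t) :
    OnlyWeaklyCompact fun t => M.op fun k => w k t := by
  have hKe : ∀ t, 0 < t → Tendsto (fun k => K * er k t) atTop (𝓝 0) := fun t ht => by
    simpa using (er_tendsto ht).const_mul K
  have hcol : ∀ k s t, ‖w k s - w k t‖ ≤ ‖(M.op fun k => w k s) - M.op fun k => w k t‖ := by
    intro k s t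
    have h1 := ((M.op fun k => w k s) - M.op fun k => w k t).le_opNorm (M.u k)
    rw [sub_apply, M.op_u fun k => hb k s, M.op_u fun k => hb k t] at h1
    exact h1.trans (mul_le_of_le_one_right (norm_nonneg _) (M.norm_u k))
  have htri : ∀ x y p q : X, c * ‖p - q‖ ≤ ‖x - y‖ + ‖x - c • p‖ + ‖y - c • q‖ := by
    intro x y p q
    have h1 : c • (p - q) = (x - y) - (x - c • p) + (y - c • q) := by
      rw [smul_sub]
      abel
    have h2 := norm_smul c (p - q)
    rw [Real.norm_of_nonneg hc.le, h1] at h2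
    have h3 := norm_add_le ((x - y) - (x - c • p)) (y - c • q)
    have h4 := norm_sub_le (x - y) (x - c • p)
    linarith
  refine ⟨fun t ht => ?_, fun t ht hA => ?_, fun t ht hA => ?_⟩
  · rcases ht.eq_or_lt with rfl | ht
    · refine M.weak_op (fun k => hb k 0) 0 fun f => ?_
      simp only [h0]
      exact tendsto_const_nhds
    · refine M.weak_op (fun k => hb k t) (c • M.u 0) fun f => ?_
      have h1 : Tendsto (fun k => w k t - c • M.γ k t) atTop (𝓝 0) :=
        squeeze_zero_norm' ((eventually_ge_atTop 1).mono fun k hk => he k t hk ht.le) (hKe t ht)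
      have h2 := ((f.continuous.tendsto 0).comp h1).add ((M.weak t f).const_mul c)
      rw [map_zero, zero_add] at h2
      rw [map_smul, smul_eq_mul]
      refine h2.congr fun k => ?_
      simp
  · obtain ⟨C, hC, hsub⟩ := IsCompactOperator.image_subset_compact_of_bounded
      (f := ((M.op fun k => w k t : X →L[ℝ] X) : X →ₗ[ℝ] X)) hA
      (Metric.isBounded_closedBall (x := (0 : X)) (r := 1))
    obtain ⟨a, -, φ, hφ, ha⟩ := hC.tendsto_subseq (x := fun k => w k t) fun k =>
      hsub ⟨M.u k, mem_closedBall_zero_iff.mpr (M.norm_u k), M.op_u (fun k => hb k t) k⟩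
    have h1 : Tendsto (fun n => ‖w (φ (n + 1)) t - w (φ n) t‖) atTop (𝓝 0) := by
      have := ((ha.comp (tendsto_add_atTop_nat 1)).sub ha).norm
      simpa using this
    have h2 := (hKe t ht).comp hφ.tendsto_atTop
    have h3 := (h1.add (h2.comp (tendsto_add_atTop_nat 1))).add h2
    rw [add_zero, add_zero] at h3
    have h4 : c * (1 / 2) ≤ 0 := by
      refine ge_of_tendsto h3 ((eventually_ge_atTop 1).mono fun n hn => ?_)
      have a1 : 1 ≤ φ n := hn.trans (hφ.id_le n)
      have a2 : φ n < φ (n + 1) := hφ (Nat.lt_succ_self n)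
      have a3 := mul_le_mul_of_nonneg_left (M.sep t _ _ a2.ne') hc.le
      have a4 := htri (w (φ (n + 1)) t) (w (φ n) t) (M.γ (φ (n + 1)) t) (M.γ (φ n) t)
      have a5 := he (φ n) t a1 ht.le
      have a6 := he (φ (n + 1)) t (a1.trans a2.le) ht.le
      simp only [Function.comp_apply]
      linarith
    linarith
  · rcases ht.eq_or_lt with rfl | ht
    · have h1 : ∀ s : ℝ, 0 < s → c ≤ ‖(M.op fun k => w k s) - M.op fun k => w k 0‖ := by
        intro s hs
        have h2 := (hKe s hs).const_add ‖(M.op fun k => w k s) - M.op fun k => w k 0‖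
        rw [add_zero] at h2
        refine ge_of_tendsto h2 ((eventually_ge_atTop 1).mono fun k hk => ?_)
        have a1 := hcol k s 0
        have a2 := htri (w k s) 0 (M.γ k s) 0
        have a3 := he k s hk hs.le
        have a4 := mul_le_mul_of_nonneg_left (M.one_le_norm_γ k s) hc.le
        rw [h0, sub_zero] at a1
        simp only [sub_zero, smul_zero, norm_zero, add_zero] at a2
        linarith
      have h2 := hA.mono_left (nhdsWithin_mono _ Ioi_subset_Ici_self)
      exact absurd (ge_of_tendsto h2 (eventually_mem_nhdsWithin.mono h1)) (not_le.mpr hc)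
    · have hp : ∀ k : ℕ, (0 : ℝ) ≤ 1 / (2 * (k + 1)) := fun k => by positivity
      have h1 : Tendsto (fun k : ℕ => t + 1 / (2 * ((k : ℝ) + 1))) atTop (𝓝[Ici 0] t) := by
        refine tendsto_nhdsWithin_iff.mpr ⟨?_, Eventually.of_forall fun k =>
          add_nonneg ht.le (hp k)⟩
        have h2 := ((tendsto_one_div_add_atTop_nhds_zero_nat (𝕜 := ℝ)).const_mul
          (1 / 2)).const_add t
        rw [mul_zero, add_zero] at h2
        refine h2.congr fun k => ?_
        rw [one_div_mul_one_div]
      have h3 := ((hA.comp h1).add (hKe t ht)).add (hKe t ht)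
      rw [add_zero, add_zero] at h3
      refine absurd (ge_of_tendsto h3 ((eventually_ge_atTop 1).mono fun k hk => ?_))
        (not_le.mpr hc)
      have a1 := hcol k (t + 1 / (2 * (k + 1))) t
      have a2 := htri (w k (t + 1 / (2 * (k + 1)))) (w k t) (M.γ k (t + 1 / (2 * (k + 1))))
        (M.γ k t)
      have a3 := he k t hk ht.le
      have a4 := he k (t + 1 / (2 * (k + 1))) hk (add_nonneg ht.le (hp k))
      have a5 := mul_le_mul_of_nonneg_left (er_anti k (le_add_of_nonneg_right (hp k) :
        t ≤ t + 1 / (2 * (k + 1)))) hK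
      have a6 := mul_le_mul_of_nonneg_left (M.osc k t) hc.le
      simp only [Function.comp_apply]
      linarith

end Mod

end Pool.Agent.Lib.MP_c2298c_an.AT
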