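import Pool.Agent.Lib.MP_c2298c_an.AT.Rec
import Pool.Agent.Lib.MP_c2298c_an.AT.Only
import Pool.Agent.Lib.MP_c2298c_an.AT.ModB

/-!
The terms and the remainders.
-/

namespace Pool.Agent.Lib.MP_c2298c_an.AT

open MeasureTheory Filter Topology Set

variable {X : Type} [NormedAddCommGroup X] [NormedSpace ℝ X] [PartialOrder X] [CompleteSpace X]

theorem er_nonneg (k : ℕ) (t : ℝ) : 0 ≤ er k t := by unfold er; positivity

namespace Mod

variable (M : Mod X)

theorem norm_W_succ (j : ℕ) (t : ℝ) : ‖M.W (j + 1) t‖ ≤ (1 / 2) ^ j :=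
  M.norm_op_le fun k => M.norm_w j k t

theorem summable_W (n : ℕ) (t : ℝ) : Summable fun j => M.W (n + j) t := by
  rw [← summable_nat_add_iff 1]
  refine Summable.of_norm_bounded summable_geometric_two fun j => ?_
  rw [← add_assoc]
  exact (M.norm_W_succ (n + j) t).trans
    (pow_le_pow_of_le_one (by norm_num) (by norm_num) (by omega))

/-- the remainders -/
noncomputable def R (n : ℕ) (t : ℝ) : X →L[ℝ] X := ∑' j, M.W (n + j) t

theorem hasSum_R (n : ℕ) (t : ℝ) (φ : X) : HasSum (fun j => M.W (n + j) t φ) (M.R n t φ) :=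
  (M.summable_W n t).hasSum.mapL (ContinuousLinearMap.apply ℝ X φ)

theorem hasSum_col (n k : ℕ) (t : ℝ) :
    HasSum (fun j => M.w (n + j) k t) (M.R (n + 1) t (M.u k)) := by
  have h := M.hasSum_R (n + 1) t (M.u k)
  have e : ∀ j, M.W (n + 1 + j) t (M.u k) = M.w (n + j) k t := fun j => by
    rw [show n + 1 + j = n + j + 1 by ring, W_succ, M.op_u fun k => M.norm_w _ k t]
  simpa only [e] using h

theorem norm_col (n k : ℕ) (t : ℝ) : ‖M.R (n + 1) t (M.u k)‖ ≤ 2 :=
  (M.hasSum_col n k t).norm_le_of_bounded hasSum_geometric_two fun j =>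
    (M.norm_w _ k t).trans (pow_le_pow_of_le_one (by norm_num) (by norm_num) (by omega))

theorem R_eq (n : ℕ) (t : ℝ) : M.R (n + 1) t = M.op fun k => M.R (n + 1) t (M.u k) := by
  ext φ
  have hP := M.hasSum_op M.norm_u φ
  have e : ∀ j, M.W (n + 1 + j) t (M.op M.u φ) = M.W (n + 1 + j) t φ := fun j => by
    rw [show n + 1 + j = n + j + 1 by ring, W_succ]
    have hb := fun k => M.norm_w (n + j) k t
    refine (hP.mapL (M.op fun k => M.w (n + j) k t)).unique ?_
    simp only [map_smul, M.op_u hb]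
    exact M.hasSum_op hb φ
  have h1 := M.hasSum_R (n + 1) t (M.op M.u φ)
  simp only [e] at h1
  rw [(M.hasSum_R (n + 1) t φ).unique h1]
  refine (hP.mapL (M.R (n + 1) t)).unique ?_
  simp only [map_smul]
  exact M.hasSum_op (fun k => M.norm_col n k t) φ

theorem only_W (j : ℕ) : OnlyWeaklyCompact (M.W (j + 1)) :=
  M.only_of (w := fun k t => M.w j k t) (c := (1 / 2) ^ (j + 1)) (K := 11 * (3 / 4) ^ j)
    (by positivity) (by positivity) (M.norm_w j) (M.w_at_zero j) fun k t hk ht =>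
      M.w_est j k hk t ht

theorem only_R (n : ℕ) : OnlyWeaklyCompact (M.R (n + 1)) := by
  have e : M.R (n + 1) = fun t => M.op fun k => M.R (n + 1) t (M.u k) := funext (M.R_eq n)
  rw [e]
  refine M.only_of (w := fun k t => M.R (n + 1) t (M.u k)) (c := (1 / 2) ^ n) (K := 44)
    (by positivity) (by norm_num) (M.norm_col n) (fun k => ?_) fun k t hk ht => ?_
  · have h := M.hasSum_col n k 0
    simp only [w_at_zero] at h
    exact h.unique hasSum_zero
  · have g1 : HasSum (fun j : ℕ => (1 / 2 : ℝ) ^ (n + j + 1)) ((1 / 2) ^ n) := by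
      have := hasSum_geometric_two.mul_left ((1 / 2 : ℝ) ^ (n + 1))
      rw [show (1 / 2 : ℝ) ^ (n + 1) * 2 = (1 / 2) ^ n by ring] at this
      have e : (fun j : ℕ => (1 / 2 : ℝ) ^ (n + j + 1)) =
          fun j => (1 / 2 : ℝ) ^ (n + 1) * (1 / 2) ^ j := funext fun j => by ring
      rwa [e]
    have g2 : HasSum (fun j : ℕ => 11 * (3 / 4 : ℝ) ^ j * er k t) (44 * er k t) := by
      have := ((hasSum_geometric_of_lt_one (r := 3 / 4) (by norm_num) (by norm_num)).mul_left
        11).mul_right (er k t)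
      rwa [show (11 : ℝ) * (1 - 3 / 4)⁻¹ = 44 by norm_num] at this
    refine ((M.hasSum_col n k t).sub (g1.smul_const (M.γ k t))).norm_le_of_bounded g2 fun j => ?_
    refine (M.w_est (n + j) k hk t ht).trans ?_
    refine mul_le_mul_of_nonneg_right (mul_le_mul_of_nonneg_left ?_ (by norm_num)) (er_nonneg k t)
    exact pow_le_pow_of_le_one (by norm_num) (by norm_num) (by omega)

theorem allFail [IsOrderedAddMonoid X] [OrderClosedTopology X] [IsOrderedModule ℝ X] :
    AllTermsFail X M.m := by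
  obtain ⟨T, hT⟩ := exists_gen M.U
  refine ⟨M.U, T, M.Bop T, M.W, M.R, ⟨M.semi, hT, M.admissible hT, M.isDP hT⟩, M.conservative,
    fun n t _ => M.hasSum_R n t, fun n hn => ?_⟩
  obtain ⟨j, rfl⟩ : ∃ j, n = j + 1 := ⟨n - 1, by omega⟩
  exact ⟨M.only_W j, M.only_R j⟩

end Mod

theorem main : AllTermsFail XL fun φ => ∫ p, φ p ∂nu := by
  have := ordMod nu
  have h := model.allFail
  have e : (model.m : XL → ℝ) = fun φ => ∫ p, φ p ∂nu := funext mm_eq
  rwa [e] at h

omit [CompleteSpace X] in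
/-- the statement implies the earlier one -/
theorem both_of_all {m : X → ℝ} (h : AllTermsFail X m) : BothConclusionsFail X := by
  obtain ⟨U, T, B, W, R, h1, -, -, h2⟩ := h
  exact ⟨U, T, B, W, 1, h1, (h2 1 le_rfl).1.1, ⟨1, one_pos, (h2 _ (by norm_num)).1.2.1 1 one_pos⟩,
    ⟨1, one_pos, (h2 _ (by norm_num)).1.2.2 1 zero_le_one⟩⟩

end Pool.Agent.Lib.MP_c2298c_an.AT
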