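import Pool.Agent.Lib.MP_c2298c_an.AT.Circ

/-!
The semigroup on `L¹` of countably many circles.
-/

namespace Pool.Agent.Lib.MP_c2298c_an.AT

open MeasureTheory Filter Topology Set

/-- the state space -/
abbrev Sp : Type := ℕ × UnitAddCircle

/-- the measure -/
noncomputable abbrev nu : Measure Sp := (Measure.count : Measure ℕ).prod hm

/-- the Lebesgue space -/
abbrev XL : Type := Lp ℝ 1 nu

theorem ordMod {Ω : Type} [MeasurableSpace Ω] (ν : Measure Ω) : IsOrderedModule ℝ (Lp ℝ 1 ν) := by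
  have h : ∀ (c : ℝ) (φ : Lp ℝ 1 ν), 0 ≤ c → 0 ≤ φ → 0 ≤ c • φ := by
    intro c φ hc hφ
    rw [← Lp.coeFn_nonneg] at hφ ⊢
    filter_upwards [hφ, Lp.coeFn_smul c φ] with x h1 h2
    rw [h2]
    exact mul_nonneg hc h1
  refine { smul_le_smul_of_nonneg_left := fun c hc φ ψ hle => ?_
           smul_le_smul_of_nonneg_right := fun φ hφ c d hle => ?_ }
  · rw [← sub_nonneg, ← smul_sub]
    exact h _ _ hc (sub_nonneg.2 hle)
  · rw [← sub_nonneg, ← sub_smul]
    exact h _ _ (sub_nonneg.2 hle) hφ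

theorem locFin : IsLocallyFiniteMeasure nu := by
  refine ⟨fun p => ⟨{p.1} ×ˢ univ, ?_, ?_⟩⟩
  · exact ((isOpen_discrete _).prod isOpen_univ).mem_nhds ⟨rfl, trivial⟩
  · rw [Measure.prod_prod]
    simp

theorem integrable_mul (c : ℕ → ℝ) (hc : ∀ k, |c k| ≤ 1) (φ : XL) :
    Integrable (fun p : Sp => c p.1 * φ p) nu :=
  (L1.integrable_coeFn φ).bdd_mul (c := 1)
    ((measurable_from_nat (f := c)).comp measurable_fst).aestronglyMeasurable
    (Eventually.of_forall fun p => hc p.1)

/-- multiplication by a function of the level -/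
noncomputable def mul (c : ℕ → ℝ) (hc : ∀ k, |c k| ≤ 1) : XL →L[ℝ] XL :=
  LinearMap.mkContinuous
    { toFun := fun φ => (integrable_mul c hc φ).toL1 _
      map_add' := fun φ ψ => by
        rw [← Integrable.toL1_add, Integrable.toL1_eq_toL1_iff]
        filter_upwards [Lp.coeFn_add φ ψ] with p h
        simp only [h, Pi.add_apply, mul_add]
      map_smul' := fun r φ => by
        rw [RingHom.id_apply, ← Integrable.toL1_smul', Integrable.toL1_eq_toL1_iff]
        filter_upwards [Lp.coeFn_smul r φ] with p h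
        simp only [h, Pi.smul_apply, smul_eq_mul]
        ring }
    1 fun φ => by
      rw [one_mul, L1.norm_eq_integral_norm φ]
      refine (L1.norm_of_fun_eq_integral_norm (integrable_mul c hc φ)).trans_le ?_
      refine integral_mono (integrable_mul c hc φ).norm (L1.integrable_coeFn φ).norm fun p => ?_
      simp only [norm_mul]
      exact mul_le_of_le_one_left (norm_nonneg _) (hc p.1)

theorem mul_ae (c : ℕ → ℝ) (hc : ∀ k, |c k| ≤ 1) (φ : XL) :
    mul c hc φ =ᵐ[nu] fun p => c p.1 * φ p := Integrable.coeFn_toL1 (integrable_mul c hc φ)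

theorem norm_mul_le (c : ℕ → ℝ) (hc : ∀ k, |c k| ≤ 1) : ‖mul c hc‖ ≤ 1 :=
  LinearMap.mkContinuous_norm_le _ zero_le_one _

/-- rotation of all circles -/
def rot (t : ℝ) (p : Sp) : Sp := (p.1, p.2 - (t : UnitAddCircle))

theorem mp_rot (t : ℝ) : MeasurePreserving (rot t) nu nu :=
  (MeasurePreserving.id _).prod (measurePreserving_sub_right hm (t : UnitAddCircle))

/-- the rotation group -/
noncomputable def tr (t : ℝ) : XL →L[ℝ] XL :=
  (Lp.compMeasurePreservingₗᵢ ℝ (rot t) (mp_rot t)).toContinuousLinearMap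

theorem tr_ae (t : ℝ) (φ : XL) : tr t φ =ᵐ[nu] fun p => φ (rot t p) :=
  Lp.coeFn_compMeasurePreserving φ (mp_rot t)

theorem norm_tr_le (t : ℝ) : ‖tr t‖ ≤ 1 := LinearIsometry.norm_toContinuousLinearMap_le _

theorem continuous_tr (φ : XL) : Continuous fun t => tr t φ := by
  have := locFin
  have h : Continuous fun q : ℝ × Sp => rot q.1 q.2 := by unfold rot; fun_prop
  exact Continuous.compMeasurePreservingLp (f := fun _ : ℝ => φ)
    (g := (ContinuousMap.curry ⟨_, h⟩ : C(ℝ, C(Sp, Sp)))) continuous_const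
    (ContinuousMap.curry ⟨_, h⟩).continuous mp_rot (by simp)

/-- the damping factor -/
noncomputable def dm (t : ℝ) (k : ℕ) : ℝ := Real.exp (-(rho k * max t 0))

theorem abs_dm_le (t : ℝ) (k : ℕ) : |dm t k| ≤ 1 := by
  unfold dm
  rw [abs_of_pos (Real.exp_pos _), Real.exp_le_one_iff, neg_nonpos]
  exact mul_nonneg (rho_nonneg k) (le_max_right _ _)

theorem dm_of_nonneg {t : ℝ} (ht : 0 ≤ t) (k : ℕ) : dm t k = Real.exp (-(rho k * t)) := by
  rw [dm, max_eq_left ht]

/-- the semigroup -/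
noncomputable def UU (t : ℝ) : XL →L[ℝ] XL := mul (dm t) (abs_dm_le t) ∘L tr t

theorem UU_ae (t : ℝ) (φ : XL) : UU t φ =ᵐ[nu] fun p => dm t p.1 * φ (rot t p) := by
  filter_upwards [mul_ae (dm t) (abs_dm_le t) (tr t φ), tr_ae t φ] with p h1 h2
  rw [← h2]
  exact h1

theorem norm_UU (t : ℝ) : ‖UU t‖ ≤ 1 :=
  (ContinuousLinearMap.opNorm_comp_le _ _).trans
    (mul_le_one₀ (norm_mul_le _ _) (norm_nonneg _) (norm_tr_le t))

theorem continuous_mul_dm (φ : XL) : Continuous fun t => mul (dm t) (abs_dm_le t) φ := by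
  refine continuous_iff_continuousAt.2 fun t₀ => ?_
  rw [ContinuousAt, tendsto_iff_norm_sub_tendsto_zero]
  have e : ∀ t, ‖mul (dm t) (abs_dm_le t) φ - mul (dm t₀) (abs_dm_le t₀) φ‖ =
      ∫ p, ‖dm t p.1 * φ p - dm t₀ p.1 * φ p‖ ∂nu := by
    intro t
    rw [L1.norm_eq_integral_norm]
    refine integral_congr_ae ?_
    filter_upwards [Lp.coeFn_sub (mul (dm t) (abs_dm_le t) φ) (mul (dm t₀) (abs_dm_le t₀) φ),
      mul_ae (dm t) (abs_dm_le t) φ, mul_ae (dm t₀) (abs_dm_le t₀) φ] with p h1 h2 h3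
    rw [h1, Pi.sub_apply, h2, h3]
  simp only [e]
  have hc : Continuous fun t => ∫ p, ‖dm t p.1 * φ p - dm t₀ p.1 * φ p‖ ∂nu := by
    refine continuous_of_dominated (bound := fun p => ‖φ p‖ + ‖φ p‖) (fun t => ?_) (fun t => ?_)
      ((L1.integrable_coeFn φ).norm.add (L1.integrable_coeFn φ).norm) ?_
    · exact ((integrable_mul _ (abs_dm_le t) φ).sub
        (integrable_mul _ (abs_dm_le t₀) φ)).norm.aestronglyMeasurable
    · refine Eventually.of_forall fun p => ?_
      rw [norm_norm]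
      refine (norm_sub_le _ _).trans (add_le_add ?_ ?_) <;> rw [norm_mul]
      · exact mul_le_of_le_one_left (norm_nonneg _) (abs_dm_le _ _)
      · exact mul_le_of_le_one_left (norm_nonneg _) (abs_dm_le _ _)
    · refine Eventually.of_forall fun p => ?_
      unfold dm
      fun_prop
  simpa using hc.tendsto t₀

theorem continuous_UU (φ : XL) : Continuous fun t => UU t φ := by
  refine continuous_iff_continuousAt.2 fun t₀ => ?_
  rw [ContinuousAt, tendsto_iff_norm_sub_tendsto_zero]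
  have h1 := tendsto_iff_norm_sub_tendsto_zero.1 ((continuous_tr φ).tendsto t₀)
  have h2 := tendsto_iff_norm_sub_tendsto_zero.1 ((continuous_mul_dm (tr t₀ φ)).tendsto t₀)
  refine squeeze_zero (fun _ => norm_nonneg _) (fun t => ?_) (by simpa using h1.add h2)
  have e : UU t φ - UU t₀ φ = mul (dm t) (abs_dm_le t) (tr t φ - tr t₀ φ) +
      (mul (dm t) (abs_dm_le t) (tr t₀ φ) - mul (dm t₀) (abs_dm_le t₀) (tr t₀ φ)) := by
    rw [map_sub, sub_add_sub_cancel]; rfl
  rw [e]
  refine (norm_add_le _ _).trans (add_le_add ?_ le_rfl)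
  exact (ContinuousLinearMap.le_opNorm _ _).trans
    (mul_le_of_le_one_left (norm_nonneg _) (norm_mul_le _ _))

theorem semi_UU : IsSubstochasticSemigroup UU where
  map_zero := by
    ext φ : 1
    refine Lp.ext ?_
    filter_upwards [UU_ae 0 φ] with p h
    rw [h]
    simp [dm, rot]
  map_add := fun s t hs ht => by
    ext φ : 1
    refine Lp.ext ?_
    filter_upwards [UU_ae (s + t) φ, UU_ae s (UU t φ),
      (mp_rot s).quasiMeasurePreserving.ae (UU_ae t φ)] with p h1 h2 h3
    rw [h1, mul_apply_eq_comp, h2, h3, dm_of_nonneg (add_nonneg hs ht),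
      dm_of_nonneg hs, dm_of_nonneg ht, ← mul_assoc, ← Real.exp_add]
    congr 1
    · congr 1; simp only [rot]; ring
    · simp only [rot, AddCircle.coe_add, sub_sub]
  strongly_continuous := fun φ => (continuous_UU φ).continuousOn
  positive := fun t _ φ hφ => by
    rw [← Lp.coeFn_nonneg] at hφ ⊢
    filter_upwards [UU_ae t φ, (mp_rot t).quasiMeasurePreserving.ae hφ] with p h1 h2
    rw [h1]
    exact mul_nonneg (Real.exp_pos _).le h2
  contraction := fun t _ => norm_UU t

end Pool.Agent.Lib.MP_c2298c_an.AT
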