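import Pool.Agent.Lib.MP_c2298c_an.AT.Adm
import Pool.Agent.Lib.MP_c2298c_an.AT.Est

/-!
The recursion of the Dyson-Phillips terms.
-/

namespace Pool.Agent.Lib.MP_c2298c_an.AT

open MeasureTheory Filter Topology Set

variable {X : Type} [NormedAddCommGroup X] [NormedSpace ℝ X] [PartialOrder X] [CompleteSpace X]
  [IsOrderedAddMonoid X] [OrderClosedTopology X] [IsOrderedModule ℝ X]

namespace Mod

variable (M : Mod X) {T : X →ₗ.[ℝ] X}

/-- induction; `op_nonneg`, `intervalIntegral.integral_of_le`, `setIntegral_nonneg` or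
`integral_nonneg_of_ae`, `b_pos` -/
theorem W_pos (j : ℕ) : ∀ t : ℝ, 0 ≤ t → ∀ φ : X, 0 ≤ φ → 0 ≤ M.W j t φ := by
  induction j with
  | zero => exact fun t ht φ hφ => M.semi.positive t ht φ hφ
  | succ j ih =>
    intro t ht φ hφ
    rw [W_succ]
    refine M.op_nonneg (fun k => M.norm_w j k t) (fun k => ?_) hφ
    unfold w
    rw [max_eq_left ht, intervalIntegral.integral_of_le ht]
    refine integral_nonneg_of_ae (ae_restrict_of_forall_mem measurableSet_Ioc fun s hs => ?_)
    exact smul_nonneg (mul_nonneg (rho_nonneg k) (Real.exp_pos _).le)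
      (ih _ (sub_nonneg.2 hs.2) _ (M.b_pos k))

/-- `g s = ∑' k, a k φ • (rho k * exp (-(rho k * max s 0))) • W j (t - s) (b k)`, continuous by
`continuous_tsum` with the bound `|rho k * a k φ|` (`summable_rho`, `Wb`); on `Icc 0 t` it is the
integrand (`gen_comm`, `hasSum_Bop`, `a_U`, `HasSum.mapL`); the integral by
`intervalIntegral.hasSum_integral_of_dominated_convergence`, `hasSum_op`, `norm_w` -/
theorem isDP (hT : IsGenerator M.U T) : IsDysonPhillips M.U T (M.Bop T) M.W := by
  refine ⟨fun t _ => rfl, M.W_pos, fun j t ht φ hφ => ?_⟩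
  set F : ℕ → ℝ → X := fun k s =>
    (rho k * M.a k φ * Real.exp (-(rho k * max s 0))) • M.W j (t - s) (M.b k) with hF
  have hs : Summable fun k => |rho k * M.a k φ| * (1 / 2) ^ j :=
    (M.summable_rho hT ⟨φ, hφ⟩).mul_right _
  have hc : ∀ k, Continuous (F k) := fun k =>
    Continuous.smul (by fun_prop) (((M.Wb j).2 k).comp (continuous_const.sub continuous_id))
  have hb : ∀ k s, ‖F k s‖ ≤ |rho k * M.a k φ| * (1 / 2) ^ j := fun k s => by
    rw [hF]
    simp only
    rw [norm_smul, Real.norm_eq_abs, abs_mul, abs_of_pos (Real.exp_pos _)]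
    have h1 : Real.exp (-(rho k * max s 0)) ≤ 1 :=
      Real.exp_le_one_iff.2 (neg_nonpos.2 (mul_nonneg (rho_nonneg k) (le_max_right _ _)))
    exact mul_le_mul (mul_le_of_le_one_right (abs_nonneg _) h1) ((M.Wb j).1 k _) (norm_nonneg _)
      (abs_nonneg _)
  have hsum : ∀ s, HasSum (fun k => F k s) (∑' k, F k s) := fun s =>
    (Summable.of_norm_bounded hs fun k => hb k s).hasSum
  refine ⟨fun s => ∑' k, F k s, fun s hs' => ?_,
    (continuous_tsum hc hs hb).intervalIntegrable _ _, ?_⟩
  · obtain ⟨h, -⟩ := gen_comm M.semi hT ⟨φ, hφ⟩ hs'.1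
    refine ⟨h, (hsum s).unique ?_⟩
    have h1 := (M.hasSum_Bop hT ⟨M.U s φ, h⟩).mapL (M.W j (t - s))
    have h2 : (fun k => F k s) = fun k =>
        M.W j (t - s) ((rho k * M.a k (M.U s φ)) • M.b k) := by
      funext k
      rw [hF]
      simp only
      rw [map_smul, M.a_U k s φ hs'.1, max_eq_left hs'.1]
      congr 1
      ring
    rw [h2]
    exact h1
  · have h1 := intervalIntegral.hasSum_integral_of_dominated_convergence (μ := volume)
      (a := 0) (b := t) (F := F) (f := fun s => ∑' k, F k s)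
      (fun k _ => |rho k * M.a k φ| * (1 / 2) ^ j)
      (fun k => (hc k).aestronglyMeasurable)
      (fun k => Eventually.of_forall fun s _ => hb k s)
      (Eventually.of_forall fun s _ => hs) intervalIntegrable_const
      (Eventually.of_forall fun s _ => hsum s)
    rw [W_succ]
    refine (M.hasSum_op (fun k => M.norm_w j k t) φ).unique ?_
    have h2 : (fun k => M.a k φ • M.w j k t) = fun k => ∫ s in (0 : ℝ)..t, F k s := by
      funext k
      unfold w
      rw [max_eq_left ht, ← intervalIntegral.integral_smul]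
      refine intervalIntegral.integral_congr fun s hs' => ?_
      rw [uIcc_of_le ht] at hs'
      rw [hF]
      simp only
      rw [max_eq_left hs'.1, smul_smul]
      congr 1
      ring
    rw [h2]
    exact h1

end Mod

end Pool.Agent.Lib.MP_c2298c_an.AT
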