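import Pool.Agent.Lib.MP_c2298c_an.Defs

/-!
All Dyson-Phillips terms and remainders weakly compact, none compact, none norm continuous.
-/

namespace Pool.Agent.Lib.MP_c2298c_an

open Filter Topology Set

variable {X : Type} [NormedAddCommGroup X] [NormedSpace ℝ X] [PartialOrder X]

omit [PartialOrder X] in
/-- `A t` is weakly compact for every `t ≥ 0`, compact for no `t > 0`, and `A` is continuous in
operator norm at no `t ≥ 0`. -/
def OnlyWeaklyCompact (A : ℝ → (X →L[ℝ] X)) : Prop :=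
  (∀ t : ℝ, 0 ≤ t → IsWeaklyCompactOperator (A t)) ∧
  (∀ t : ℝ, 0 < t → ¬ IsCompactOperator (A t)) ∧
  (∀ t : ℝ, 0 ≤ t → ¬ Tendsto (fun s : ℝ => ‖A s - A t‖) (𝓝[Ici 0] t) (𝓝 0))

variable (X) in
/-- On `X` there are `U, T, B, W` as in the setting, with `T + B` conserving the mass `m`, and
remainders `R n t = ∑_{j ≥ n} W j t` (strong sums), such that every `W n` and every `R n` with
`n ≥ 1` is weakly compact at all times, compact at no positive time and nowhere norm continuous. -/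
def AllTermsFail (m : X → ℝ) : Prop :=
  ∃ (U : ℝ → (X →L[ℝ] X)) (T : X →ₗ.[ℝ] X) (B : T.domain →ₗ[ℝ] X)
    (W R : ℕ → ℝ → (X →L[ℝ] X)), IsSetting U T B W ∧
    (∀ φ : T.domain, m (T φ + B φ) = 0) ∧
    (∀ (n : ℕ) (t : ℝ), 0 ≤ t → ∀ φ : X, HasSum (fun j => W (n + j) t φ) (R n t φ)) ∧
    ∀ n : ℕ, 1 ≤ n → OnlyWeaklyCompact (W n) ∧ OnlyWeaklyCompact (R n)

end Pool.Agent.Lib.MP_c2298c_an
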