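import Pool.Agent.Lib.MP_c2298c_an.AT.Base

/-!
Weak compactness without compactness or norm continuity.
-/

namespace Pool.Agent.Lib.MP_c2298c_an.AT

open MeasureTheory Filter Topology Set

variable {X : Type} [NormedAddCommGroup X] [NormedSpace ℝ X] [PartialOrder X] [CompleteSpace X]

/-- the ball of radius `r` of the space of summable sequences, in the product topology -/
def ballL_h48 (r : ℝ) : Set (ℕ → ℝ) := {x | ∀ F : Finset ℕ, ∑ k ∈ F, |x k| ≤ r}

theorem isCompact_ballL_h48 (r : ℝ) : IsCompact (ballL_h48 r) := by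
  have h1 : IsCompact (Set.pi univ fun _ : ℕ => Icc (-r) r) :=
    isCompact_univ_pi fun _ => isCompact_Icc
  refine h1.of_isClosed_subset ?_ ?_
  · have : ballL_h48 r = ⋂ F : Finset ℕ, {x : ℕ → ℝ | ∑ k ∈ F, |x k| ≤ r} := by
      ext x
      simp [ballL_h48]
    rw [this]
    exact isClosed_iInter fun F => isClosed_le (by fun_prop) continuous_const
  · intro x hx k _
    have := hx {k}
    rw [Finset.sum_singleton] at this
    exact abs_le.mp this

theorem summable_ballL_h48 {r : ℝ} {x : ℕ → ℝ} (hx : x ∈ ballL_h48 r) :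
    Summable fun k => |x k| :=
  summable_of_sum_le (fun _ => abs_nonneg _) hx

theorem contOn_ballL_h48 (r : ℝ) {g : ℕ → ℝ} (hg : Tendsto g atTop (𝓝 0)) :
    ContinuousOn (fun x : ℕ → ℝ => ∑' k, x k * g k) (ballL_h48 r) := by
  obtain ⟨C, hC⟩ : ∃ C, ∀ k, |g k| ≤ C := by
    obtain ⟨C, hC⟩ := (hg.abs).bddAbove_range
    exact ⟨C, fun k => hC ⟨k, rfl⟩⟩
  have hu : TendstoUniformlyOn (fun (N : ℕ) (x : ℕ → ℝ) => ∑ k ∈ Finset.range N, x k * g k)
      (fun x => ∑' k, x k * g k) atTop (ballL_h48 r) := by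
    rw [Metric.tendstoUniformlyOn_iff]
    intro ε hε
    have hδ : 0 < ε / (|r| + 1) := by positivity
    obtain ⟨N₀, hN₀⟩ := (Metric.tendsto_atTop.mp hg) _ hδ
    filter_upwards [eventually_ge_atTop N₀] with N hN x hx
    have hs := summable_ballL_h48 hx
    have hs1 : Summable fun k => x k * g k :=
      Summable.of_norm_bounded (hs.mul_right C) fun k => by
        rw [Real.norm_eq_abs, abs_mul]
        exact mul_le_mul_of_nonneg_left (hC k) (abs_nonneg _)
    rw [← hs1.sum_add_tsum_nat_add N, Real.dist_eq, add_sub_cancel_left]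
    have hs2 : Summable fun k => |x (k + N)| := (summable_nat_add_iff N).mpr hs
    have h3 : ∑' k, |x (k + N)| ≤ r := by
      refine hs2.tsum_le_of_sum_le fun F => ?_
      have := hx (F.map (addRightEmbedding N))
      rwa [Finset.sum_map] at this
    have h4 : ‖∑' k, x (k + N) * g (k + N)‖ ≤ (∑' k, |x (k + N)|) * (ε / (|r| + 1)) := by
      refine tsum_of_norm_bounded (hs2.hasSum.mul_right _) fun k => ?_
      rw [Real.norm_eq_abs, abs_mul]
      refine mul_le_mul_of_nonneg_left ?_ (abs_nonneg _)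
      have := hN₀ (k + N) (by omega)
      rw [Real.dist_eq, sub_zero] at this
      exact this.le
    rw [Real.norm_eq_abs] at h4
    refine h4.trans_lt ?_
    have h5 : (∑' k, |x (k + N)|) < |r| + 1 := by linarith [le_abs_self r]
    calc (∑' k, |x (k + N)|) * (ε / (|r| + 1)) < (|r| + 1) * (ε / (|r| + 1)) :=
          mul_lt_mul_of_pos_right h5 hδ
      _ = ε := by field_simp
  exact hu.continuousOn (Frequently.of_forall fun N => by fun_prop)

namespace Mod

variable (M : Mod X)

/-- `s ⊆ closedBall 0 r`. `K = Icc (-r) r ×ˢ {x : ℕ → ℝ | ∀ F : Finset ℕ, ∑ k ∈ F, |x k| ≤ r}` is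
compact (closed subset of `pi univ (Icc (-r) r)`), `Φ (σ, x) = σ • y + ∑' k, x k • (w k - y)` is
continuous on `K` for the weak topology (`continuousOn_iff_continuous_restrict`,
`WeakBilin.continuous_of_continuous_eval`; for each `f` the finite sums converge uniformly on
`K`: the tail after `N` is at most `r * sup_{k ≥ N} |f (w k - y)|`), and
`op w φ = Φ (m φ, a · φ)` (`m_sum`). End as in `isWeaklyCompact_of_isCompact` of `../DP.lean`
(`IsCompact.closure_of_subset`). -/
theorem weak_op {w : ℕ → X} {c : ℝ} (h : ∀ k, ‖w k‖ ≤ c) (y : X)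
    (hy : ∀ f : X →L[ℝ] ℝ, Tendsto (fun k => f (w k)) atTop (𝓝 (f y))) :
    IsWeaklyCompactOperator (M.op w) := by
  intro s hs
  obtain ⟨r, hr⟩ := hs.exists_norm_le
  have hw : ∀ k, ‖w k - y‖ ≤ c + ‖y‖ := fun k => (norm_sub_le _ _).trans (by linarith [h k])
  have hsum : ∀ x ∈ ballL_h48 r, Summable fun k => x k • (w k - y) := fun x hx =>
    Summable.of_norm_bounded ((summable_ballL_h48 hx).mul_right (c + ‖y‖)) fun k => by
      rw [norm_smul]
      exact mul_le_mul_of_nonneg_left (hw k) (abs_nonneg _)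
  have hK : IsCompact (Icc (-r) r ×ˢ ballL_h48 r) := isCompact_Icc.prod (isCompact_ballL_h48 r)
  have hΦ : ContinuousOn (fun p : ℝ × (ℕ → ℝ) =>
      toWeakSpace ℝ X (p.1 • y + ∑' k, p.2 k • (w k - y))) (Icc (-r) r ×ˢ ballL_h48 r) := by
    rw [continuousOn_iff_continuous_domRestrict]
    refine WeakBilin.continuous_of_continuous_eval (topDualPairing ℝ X).flip fun f => ?_
    have hg : Tendsto (fun k => f (w k - y)) atTop (𝓝 0) := by
      have := (hy f).sub_const (f y)
      rw [sub_self] at this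
      simpa only [map_sub] using this
    have h1 : ContinuousOn (fun p : ℝ × (ℕ → ℝ) => p.1 * f y + ∑' k, p.2 k * f (w k - y))
        (Icc (-r) r ×ˢ ballL_h48 r) :=
      (by fun_prop : Continuous fun p : ℝ × (ℕ → ℝ) => p.1 * f y).continuousOn.add
        ((contOn_ballL_h48 r hg).comp continuous_snd.continuousOn fun p hp => hp.2)
    rw [continuousOn_iff_continuous_domRestrict] at h1
    refine h1.congr fun p => ?_
    change p.1.1 * f y + ∑' k, p.1.2 k * f (w k - y) =
      f (p.1.1 • y + ∑' k, p.1.2 k • (w k - y))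
    rw [map_add, map_smul, f.map_tsum (hsum _ p.2.2)]
    simp only [map_smul, smul_eq_mul]
  refine (hK.image_of_continuousOn hΦ).closure_of_subset ?_
  rintro _ ⟨_, ⟨φ, hφ, rfl⟩, rfl⟩
  have hx : (fun k => M.a k φ) ∈ ballL_h48 r := fun F => (M.a_sum φ F).trans (hr φ hφ)
  have hm : |M.m φ| ≤ r := by
    rw [← (M.m_sum φ).tsum_eq, ← Real.norm_eq_abs]
    exact (tsum_of_norm_bounded (M.summable_a φ).hasSum fun k => le_rfl).trans
      ((M.tsum_a_le φ).trans (hr φ hφ))
  refine ⟨(M.m φ, fun k => M.a k φ), ⟨abs_le.mp hm, hx⟩, ?_⟩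
  have h2 : HasSum (fun k => M.a k φ • (w k - y)) (M.op w φ - M.m φ • y) := by
    simpa only [smul_sub] using (M.hasSum_op h φ).sub ((M.m_sum φ).smul_const y)
  change toWeakSpace ℝ X (M.m φ • y + ∑' k, M.a k φ • (w k - y)) = _
  rw [h2.tsum_eq, add_sub_cancel]

end Mod

end Pool.Agent.Lib.MP_c2298c_an.AT
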